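import Pool.Agent.Helper3.K3.Scale

/-!
# Asymptotics
-/

namespace Pool.Agent.Helper3.K3

open MeasureTheory Filter Topology ProbabilityTheory
open scoped ENNReal

lemma real_bound {κ a t s : ℝ} {n m : ℕ} (hκ : 0 < κ) (hs : s ≤ t) (ht : 1 ≤ t)
    (ht3 : t ^ 3 = n) (hm1 : κ * t ≤ m) (hm2 : (m : ℝ) ≤ κ * t + 1)
    (hN : κ * t + 1 ≤ t ^ 3 / 2) (ha : 0 ≤ a) :
    (n : ℝ) ^ m * (((n - m : ℕ) : ℝ)⁻¹) ^ m * Real.exp (6 * s) * Real.exp (-a) ^ m ≤
      Real.exp (2 * (κ + 1) ^ 2) * Real.exp (-((κ * a - 6) * t)) := by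
  have hmn : (m : ℝ) ≤ n / 2 := by rw [← ht3]; linarith
  have hn0 : (0 : ℝ) < n := by rw [← ht3]; positivity
  have hmn' : m ≤ n := by
    have : (m : ℝ) ≤ n := by linarith
    exact_mod_cast this
  have hNc : ((n - m : ℕ) : ℝ) = n - m := by push_cast [Nat.cast_sub hmn']; ring
  have hNpos : (0 : ℝ) < n - m := by linarith
  have hN2 : (n : ℝ) / 2 ≤ n - m := by linarith
  have e1 : (n : ℝ) ^ m * (((n - m : ℕ) : ℝ)⁻¹) ^ m = ((n : ℝ) / (n - m)) ^ m := by
    rw [hNc, ← mul_pow, div_eq_mul_inv]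
  have e2 : (n : ℝ) / (n - m) ≤ Real.exp (m / (n - m)) := by
    have := Real.add_one_le_exp ((m : ℝ) / (n - m))
    have h3 : (n : ℝ) / (n - m) = m / (n - m) + 1 := by
      field_simp
      ring
    rw [h3]
    exact this
  have e3 : ((n : ℝ) / (n - m)) ^ m ≤ Real.exp (m * (m / (n - m))) := by
    rw [Real.exp_nat_mul]
    exact pow_le_pow_left₀ (by positivity) e2 m
  have ht0 : 0 < t := by linarith
  have e4 : (m : ℝ) * (m / (n - m)) ≤ 2 * (κ + 1) ^ 2 := by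
    rw [← mul_div_assoc, div_le_iff₀ hNpos]
    have h1 : (m : ℝ) ≤ (κ + 1) * t := by nlinarith
    have h2 : (m : ℝ) * m ≤ ((κ + 1) * t) * ((κ + 1) * t) :=
      mul_le_mul h1 h1 (Nat.cast_nonneg m) (by positivity)
    have h3 : t ^ 2 ≤ t ^ 3 := by
      have : t ^ 3 = t ^ 2 * t := by ring
      nlinarith [sq_nonneg t]
    calc (m : ℝ) * m ≤ ((κ + 1) * t) * ((κ + 1) * t) := h2
      _ = (κ + 1) ^ 2 * t ^ 2 := by ring
      _ ≤ (κ + 1) ^ 2 * t ^ 3 := by gcongr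
      _ = 2 * (κ + 1) ^ 2 * (n / 2) := by rw [ht3]; ring
      _ ≤ 2 * (κ + 1) ^ 2 * (n - m) := by gcongr
  rw [e1]
  calc ((n : ℝ) / (n - m)) ^ m * Real.exp (6 * s) * Real.exp (-a) ^ m
      ≤ Real.exp (2 * (κ + 1) ^ 2) * Real.exp (6 * t) * Real.exp (-(a * (κ * t))) := by
        gcongr
        · exact e3.trans (Real.exp_le_exp.2 e4)
        · rw [← Real.exp_nat_mul]
          apply Real.exp_le_exp.2
          have := mul_le_mul_of_nonneg_left hm1 ha
          linarith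
    _ = Real.exp (2 * (κ + 1) ^ 2) * Real.exp (-((κ * a - 6) * t)) := by
        rw [mul_assoc, ← Real.exp_add]
        congr 2
        ring

lemma rpow_third (n : ℕ) : ((n : ℝ) ^ ((1 : ℝ) / 3)) ^ 3 = n := by
  rw [← Real.rpow_natCast, ← Real.rpow_mul (Nat.cast_nonneg n)]
  norm_num

/-- Chains of length `κ n^{1/3}` are unlikely. -/
theorem tendsto_law {I₀ κ : ℝ} (hI : Stmt_HS I₀) (hI0 : 0 < I₀)
    (hκ : 0 < κ) (hk : 6 < κ * (-Real.log (√I₀ / 8))) :
    Tendsto (fun n : ℕ => law n {x | κ * (n : ℝ) ^ ((1 : ℝ) / 3) ≤ longest x}) atTop (𝓝 0) := by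
  obtain ⟨C, hC, hT⟩ := hI
  set ρ := √I₀ / 8 with hρ
  have hρ0 : 0 < ρ := by positivity
  set a := -Real.log ρ with ha
  have hρe : Real.exp (-a) = ρ := by rw [ha, neg_neg, Real.exp_log hρ0]
  have ha0 : 0 ≤ a := by
    by_contra h
    push Not at h
    nlinarith
  set δ := κ * a - 6 with hδ
  have hδ0 : 0 < δ := by linarith
  have htend : Tendsto (fun n : ℕ => (n : ℝ) ^ ((1 : ℝ) / 3)) atTop atTop :=
    (tendsto_rpow_atTop (by norm_num)).comp tendsto_natCast_atTop_atTop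
  have hlim : Tendsto (fun n : ℕ => C * ENNReal.ofReal
      (Real.exp (2 * (κ + 1) ^ 2) * Real.exp (-(δ * (n : ℝ) ^ ((1 : ℝ) / 3))))) atTop (𝓝 0) := by
    have h1 : Tendsto (fun n : ℕ => Real.exp (2 * (κ + 1) ^ 2) *
        Real.exp (-(δ * (n : ℝ) ^ ((1 : ℝ) / 3)))) atTop (𝓝 0) := by
      have h2 : Tendsto (fun n : ℕ => -(δ * (n : ℝ) ^ ((1 : ℝ) / 3))) atTop atBot :=
        tendsto_neg_atTop_atBot.comp (htend.const_mul_atTop hδ0)
      have h3 := (Real.tendsto_exp_atBot.comp h2).const_mul (Real.exp (2 * (κ + 1) ^ 2))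
      simpa using h3
    have h4 := ENNReal.tendsto_ofReal h1
    have h5 := ENNReal.Tendsto.const_mul (a := C) h4 (Or.inr hC)
    simpa using h5
  refine tendsto_of_tendsto_of_tendsto_of_le_of_le' tendsto_const_nhds hlim
    (Eventually.of_forall fun n => zero_le) ?_
  have hbig : ∀ᶠ t : ℝ in atTop, 1 ≤ t ∧ κ * t + 1 ≤ t ^ 3 / 2 := by
    filter_upwards [eventually_ge_atTop (2 * κ + 2)] with t ht
    have ht1 : 1 ≤ t := by linarith
    refine ⟨ht1, ?_⟩
    have h1 : (κ + 1) * t ≤ t / 2 * t := by nlinarith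
    have h2 : t / 2 * t ≤ t ^ 3 / 2 := by
      have : t ^ 3 / 2 = (t / 2 * t) * t := by ring
      rw [this]
      nlinarith
    nlinarith
  filter_upwards [htend.eventually hbig] with n hn
  set t := (n : ℝ) ^ ((1 : ℝ) / 3) with htdef
  obtain ⟨ht1, htb⟩ := hn
  have ht0 : 0 < t := by linarith
  have ht3 : t ^ 3 = n := rpow_third n
  set m := ⌈κ * t⌉₊ with hm
  have hm1 : κ * t ≤ m := Nat.le_ceil _
  have hm2 : (m : ℝ) ≤ κ * t + 1 := (Nat.ceil_lt_add_one (by positivity)).le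
  have hmn : (m : ℝ) ≤ n / 2 := by rw [← ht3]; linarith
  have hn0 : (0 : ℝ) < n := by rw [← ht3]; positivity
  have hmn' : m < n := by
    have : (m : ℝ) < n := by linarith
    exact_mod_cast this
  have hNpos : (0 : ℝ) < ((n - m : ℕ) : ℝ) := by
    exact_mod_cast Nat.sub_pos_of_lt hmn'
  set s := ((n - m : ℕ) : ℝ) ^ ((1 : ℝ) / 3) with hs
  have hs0 : 0 < s := Real.rpow_pos_of_pos hNpos _
  have hst : s ≤ t := by
    apply Real.rpow_le_rpow (Nat.cast_nonneg _) _ (by norm_num)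
    exact_mod_cast Nat.sub_le n m
  have hb := law_bound (n := n) (m := m) s hs0 (rpow_third (n - m))
  calc law n {x | κ * t ≤ longest x} ≤ law n {x | m ≤ longest x} := by
        apply measure_mono
        intro x hx
        exact Nat.ceil_le.2 hx
    _ ≤ _ := hb
    _ ≤ (n : ℝ≥0∞) ^ m * (ENNReal.ofReal (Real.exp (6 * s)) *
        ((ENNReal.ofReal ((((n - m : ℕ) : ℝ))⁻¹)) ^ m * (C * ENNReal.ofReal ρ ^ m))) := by
        gcongr
        exact hT m
    _ = C * ENNReal.ofReal ((n : ℝ) ^ m * (((n - m : ℕ) : ℝ)⁻¹) ^ m * Real.exp (6 * s) *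
          ρ ^ m) := by
        rw [ENNReal.ofReal_mul (by positivity), ENNReal.ofReal_mul (by positivity),
          ENNReal.ofReal_mul (by positivity), ENNReal.ofReal_pow (by positivity),
          ENNReal.ofReal_pow (by positivity), ENNReal.ofReal_pow hρ0.le, ENNReal.ofReal_natCast]
        ring
    _ ≤ C * ENNReal.ofReal
      (Real.exp (2 * (κ + 1) ^ 2) * Real.exp (-(δ * t))) := by
        have := real_bound hκ hst ht1 ht3 hm1 hm2 htb ha0
        rw [hρe] at this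
        exact mul_le_mul' le_rfl (ENNReal.ofReal_le_ofReal this)

end Pool.Agent.Helper3.K3
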