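import Pool.Agent.Helper3.K3.Region

/-!
# Canonical chains
-/

namespace Pool.Agent.Helper3.K3

open MeasureTheory
open scoped ENNReal

/-- The indices in `s` form a chain of the configuration `x`. -/
def IsChainSet {n : ℕ} (x : Fin n → Fin 3 → ℝ) (s : Finset (Fin n)) : Prop :=
  ∀ i ∈ s, ∀ j ∈ s, i ≠ j → Lt (x i) (x j) ∨ Lt (x j) (x i)

open Classical in
/-- The length of a longest chain. -/
noncomputable def longest {n : ℕ} (x : Fin n → Fin 3 → ℝ) : ℕ :=
  (Finset.univ.filter (fun s : Finset (Fin n) => IsChainSet x s)).sup Finset.card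

lemma Lt.irrefl (x : Fin 3 → ℝ) : ¬ Lt x x := fun h => lt_irrefl _ (h 0)

lemma Ch.injective {m n : ℕ} {x : Fin n → Fin 3 → ℝ} {g : Fin m → Fin n}
    (h : Ch (fun i => x (g i))) : Function.Injective g := by
  intro a b hab
  by_contra hne
  rcases lt_or_gt_of_ne hne with h1 | h1
  · have := h a b h1
    simp only [hab] at this
    exact Lt.irrefl _ this
  · have := h b a h1
    simp only [hab] at this
    exact Lt.irrefl _ this

lemma exists_chain {n m : ℕ} (x : Fin n → Fin 3 → ℝ) (h : m ≤ longest x) :
    ∃ g : Fin m → Fin n, Ch (fun i => x (g i)) := by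
  classical
  obtain ⟨s, hs, hcard⟩ : ∃ s : Finset (Fin n), IsChainSet x s ∧ s.card = m := by
    have hne : (Finset.univ.filter (fun s : Finset (Fin n) => IsChainSet x s)).Nonempty :=
      ⟨∅, Finset.mem_filter.2 ⟨Finset.mem_univ _, fun i hi => absurd hi (by simp)⟩⟩
    obtain ⟨t, ht, htc⟩ := Finset.exists_mem_eq_sup _ hne Finset.card
    have hm : m ≤ t.card := by rw [← htc]; exact h
    obtain ⟨s, hst, hsc⟩ := Finset.exists_subset_card_eq hm
    refine ⟨s, ?_, hsc⟩
    have ht' : IsChainSet x t := (Finset.mem_filter.1 ht).2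
    intro i hi j hj hij
    exact ht' i (hst hi) j (hst hj) hij
  have hinj : Set.InjOn (fun i => x i 0) (s : Set (Fin n)) := by
    intro i hi j hj hij
    by_contra hne
    rcases hs i hi j hj hne with h1 | h1
    · exact absurd hij (h1 0).ne
    · exact absurd hij (h1 0).ne'
  have hc : (s.image (fun i => x i 0)).card = m := by
    rw [Finset.card_image_of_injOn hinj, hcard]
  have hmem : ∀ a : Fin m, ∃ i ∈ s, x i 0 = (s.image (fun i => x i 0)).orderEmbOfFin hc a := by
    intro a
    exact Finset.mem_image.1 (Finset.orderEmbOfFin_mem (s.image (fun i => x i 0)) hc a)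
  choose g hg hgx using hmem
  refine ⟨g, fun a b hab => ?_⟩
  have hlt : x (g a) 0 < x (g b) 0 := by
    rw [hgx, hgx]
    exact (Finset.orderEmbOfFin _ hc).strictMono hab
  have hne : g a ≠ g b := by
    intro h
    rw [h] at hlt
    exact lt_irrefl _ hlt
  rcases hs _ (hg a) _ (hg b) hne with h1 | h1
  · exact h1
  · exact absurd (h1 0) (not_lt.2 hlt.le)

lemma exists_canon {n m : ℕ} (x : Fin n → Fin 3 → ℝ) (hx : ∀ i, 0 ≤ x i) (h : m ≤ longest x) :
    ∃ g : Fin m → Fin n, Function.Injective g ∧ Ch (fun i => x (g i)) ∧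
      ∀ j, x j ∉ Reg m 0 0 (fun i => x (g i)) := by
  classical
  obtain ⟨g₀, hg₀⟩ := exists_chain x h
  obtain ⟨g, hg, hmin⟩ := Finset.exists_min_image
    (Finset.univ.filter (fun g : Fin m → Fin n => Ch (fun i => x (g i))))
    (fun g => ∑ a, x (g a) 0) ⟨g₀, by simpa using hg₀⟩
  have hg' : Ch (fun i => x (g i)) := (Finset.mem_filter.1 hg).2
  refine ⟨g, hg'.injective, hg', ?_⟩
  intro j hj
  rcases mem_Reg 0 0 _ hg' (fun i => hx _) _ hj with ⟨_, hb⟩ | ⟨i, _, h1, h2, h3⟩
  · exact absurd (hb.1.1.trans hb.1.2) (lt_irrefl _)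
  · have hch : Ch (fun a => x (Function.update g i j a)) := by
      intro a b hab
      by_cases ha : a = i
      · subst ha
        have hb : b ≠ a := hab.ne'
        simp only [Function.update_self, Function.update_of_ne hb]
        exact h2 b hab
      · by_cases hb : b = i
        · subst hb
          simp only [Function.update_self, Function.update_of_ne ha]
          exact h1 a hab
        · simp only [Function.update_of_ne ha, Function.update_of_ne hb]
          exact hg' a b hab
    have hle := hmin (Function.update g i j) (by simpa using hch)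
    have hlt : ∑ a, x (Function.update g i j a) 0 < ∑ a, x (g a) 0 := by
      apply Finset.sum_lt_sum
      · intro a _
        by_cases ha : a = i
        · subst ha
          simp only [Function.update_self]
          exact h3.le
        · simp only [Function.update_of_ne ha, le_refl]
      · refine ⟨i, Finset.mem_univ _, ?_⟩
        simp only [Function.update_self]
        exact h3
    exact absurd hle (not_le.2 hlt)

end Pool.Agent.Helper3.K3
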