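import Mathlib

/-!
# The longest chain constant in dimension three: common definitions (MP_79568f_pr)

`T` is the transfer operator of the canonical-chain counting argument, already scaled
(intensity one, exponential weight two).
-/

namespace Pool.Agent.Helper3.K3

open MeasureTheory
open scoped ENNReal

/-- The weight `exp(-u₀ (u₁+v₁)(u₂+v₂) - 2 (v₀+v₁+v₂))` of an increment `v` following an
increment `u`. -/
noncomputable def Q (u v : Fin 3 → ℝ) : ℝ≥0∞ :=
  ENNReal.ofReal (Real.exp (-(u 0 * (u 1 + v 1) * (u 2 + v 2)) - 2 * (v 0 + v 1 + v 2)))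

/-- The transfer operator on functions of the last increment. -/
noncomputable def T (f : (Fin 3 → ℝ) → ℝ≥0∞) (u : Fin 3 → ℝ) : ℝ≥0∞ :=
  ∫⁻ v in Set.Ici (0 : Fin 3 → ℝ), Q u v * f v

/-- The Hilbert-Schmidt growth bound: `T^k 1 (0) ≤ C (√I₀ / 8)^k`. -/
def Stmt_HS (I₀ : ℝ) : Prop :=
  ∃ C : ℝ≥0∞, C ≠ ⊤ ∧ ∀ k : ℕ,
    (T^[k] (fun _ => 1)) 0 ≤ C * ENNReal.ofReal (√I₀ / 8) ^ k

end Pool.Agent.Helper3.K3
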