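import Pool.Agent.Helper3.K3.Defs

set_option autoImplicit false

namespace Pool.Agent.Helper3.K3

open MeasureTheory Set
open scoped ENNReal

/-- one step of Newton interpolation of `(1+cs)⁻²` -/
lemma newton_step (c s x y z S : ℝ) (hy : y * (1 + c * x) = 1) (hz : z * (1 + c * s) = 1) :
    z * (S + z) = y * (S + y) - c * y * z * (S + y + z) * (s - x) := by
  linear_combination (-(S + y + z) * z) * hy + ((S + y + z) * y) * hz

/-- The Hermite majorant of `(1+cs)⁻²` (nodes `0, 22/29, 28/13, 55/12`). -/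
lemma radau_pt (c s y1 y2 y3 z : ℝ) (hc : 0 ≤ c) (hs : 0 ≤ s)
    (h1 : y1 * (1 + c * (22 / 29)) = 1) (h2 : y2 * (1 + c * (28 / 13)) = 1)
    (h3 : y3 * (1 + c * (55 / 12)) = 1) (hz : z * (1 + c * s) = 1) :
    z ^ 2 ≤ 1 + (-(c * (y1 * (1 + y1)))) * s
      + (c ^ 2 * y1 * (y1 * (1 + 2 * y1))) * (s * (s - 22 / 29))
      + (-(c ^ 3 * y1 ^ 2 * (y2 * (1 + 2 * y1 + y2)))) * (s * (s - 22 / 29) ^ 2)
      + (c ^ 4 * y1 ^ 2 * y2 * (y2 * (1 + 2 * y1 + 2 * y2)))
          * (s * (s - 22 / 29) ^ 2 * (s - 28 / 13))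
      + (-(c ^ 5 * y1 ^ 2 * y2 ^ 2 * (y3 * (1 + 2 * y1 + 2 * y2 + y3))))
          * (s * (s - 22 / 29) ^ 2 * (s - 28 / 13) ^ 2)
      + (c ^ 6 * y1 ^ 2 * y2 ^ 2 * y3 * (y3 * (1 + 2 * y1 + 2 * y2 + 2 * y3)))
          * (s * (s - 22 / 29) ^ 2 * (s - 28 / 13) ^ 2 * (s - 55 / 12)) := by
  have y1p : 0 ≤ y1 := by
    have : 0 < 1 + c * (22 / 29) := by positivity
    by_contra hneg
    nlinarith
  have y2p : 0 ≤ y2 := by
    have : 0 < 1 + c * (28 / 13) := by positivity
    by_contra hneg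
    nlinarith
  have y3p : 0 ≤ y3 := by
    have : 0 < 1 + c * (55 / 12) := by positivity
    by_contra hneg
    nlinarith
  have zp : 0 ≤ z := by
    have : 0 < 1 + c * s := by positivity
    by_contra hneg
    nlinarith
  have e0 := newton_step c s 0 1 z 0 (by ring) hz
  have e1 := newton_step c s _ y1 z 1 h1 hz
  have e2 := newton_step c s _ y1 z (1 + y1) h1 hz
  have e3 := newton_step c s _ y2 z (1 + 2 * y1) h2 hz
  have e4 := newton_step c s _ y2 z (1 + 2 * y1 + y2) h2 hz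
  have e5 := newton_step c s _ y3 z (1 + 2 * y1 + 2 * y2) h3 hz
  have e6 := newton_step c s _ y3 z (1 + 2 * y1 + 2 * y2 + y3) h3 hz
  have hR : 0 ≤ c ^ 7 * y1 ^ 2 * y2 ^ 2 * y3 ^ 2 * z * (1 + 2 * y1 + 2 * y2 + 2 * y3 + z)
      * (s * ((s - 22 / 29) ^ 2 * (s - 28 / 13) ^ 2 * (s - 55 / 12) ^ 2)) := by
    positivity
  refine le_of_sub_nonneg (hR.trans_eq ?_)
  linear_combination e0 - (c * s) * e1 + (c ^ 2 * y1 * (s * (s - 22 / 29))) * e2
    - (c ^ 3 * y1 ^ 2 * (s * (s - 22 / 29) ^ 2)) * e3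
    + (c ^ 4 * y1 ^ 2 * y2 * (s * (s - 22 / 29) ^ 2 * (s - 28 / 13))) * e4
    - (c ^ 5 * y1 ^ 2 * y2 ^ 2 * (s * (s - 22 / 29) ^ 2 * (s - 28 / 13) ^ 2)) * e5
    + (c ^ 6 * y1 ^ 2 * y2 ^ 2 * y3 * (s * (s - 22 / 29) ^ 2 * (s - 28 / 13) ^ 2
      * (s - 55 / 12))) * e6

/-- The moments of `e^{-2s}`. -/
lemma mom_integrable (n : ℕ) :
    IntegrableOn (fun s : ℝ => s ^ n * Real.exp (-(2 * s))) (Ioi 0) := by
  have h := integrableOn_rpow_mul_exp_neg_mul_rpow (p := 1) (s := n) (b := 2)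
    (by have : (0 : ℝ) ≤ n := Nat.cast_nonneg n
        linarith) (by norm_num) (by norm_num)
  refine h.congr_fun (fun s _ => ?_) measurableSet_Ioi
  simp [Real.rpow_natCast]

lemma mom_eq (n : ℕ) :
    ∫ s in Ioi (0 : ℝ), s ^ n * Real.exp (-(2 * s)) = n.factorial / 2 ^ (n + 1) := by
  have h := Real.integral_rpow_mul_exp_neg_mul_Ioi (a := (n : ℝ) + 1) (r := 2)
    (by positivity) (by norm_num)
  have h2 : ∀ s : ℝ, s ^ ((n : ℝ) + 1 - 1) * Real.exp (-(2 * s)) = s ^ n * Real.exp (-(2 * s)) := by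
    intro s
    rw [add_sub_cancel_right, Real.rpow_natCast]
  simp only [h2] at h
  rw [h, Real.Gamma_nat_eq_factorial]
  have : ((1 : ℝ) / 2) ^ ((n : ℝ) + 1) = 1 / 2 ^ (n + 1) := by
    rw [← Nat.cast_succ, Real.rpow_natCast]
    simp
  rw [this]
  ring

lemma poly_integral (a : ℕ → ℝ) (N : ℕ) :
    IntegrableOn (fun s : ℝ => s * Real.exp (-(2 * s)) * ∑ n ∈ Finset.range N, a n * s ^ n)
        (Ioi 0) ∧
      ∫ s in Ioi (0 : ℝ), s * Real.exp (-(2 * s)) * ∑ n ∈ Finset.range N, a n * s ^ n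
        = ∑ n ∈ Finset.range N, a n * ((n + 1).factorial / 2 ^ (n + 2)) := by
  have h : ∀ s : ℝ, s * Real.exp (-(2 * s)) * ∑ n ∈ Finset.range N, a n * s ^ n
      = ∑ n ∈ Finset.range N, a n * (s ^ (n + 1) * Real.exp (-(2 * s))) := by
    intro s
    rw [Finset.mul_sum]
    refine Finset.sum_congr rfl fun n _ => ?_
    ring
  simp only [h]
  constructor
  · exact integrable_finsetSum _ fun n _ => (mom_integrable (n + 1)).const_mul (a n)
  · rw [integral_finsetSum _ fun n _ => (mom_integrable (n + 1)).const_mul (a n)]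
    refine Finset.sum_congr rfl fun n _ => ?_
    rw [integral_const_mul, mom_eq]

/-- The quadrature value. -/
noncomputable def wt (c : ℝ) : ℝ :=
  250001 / 10000000 + 170935 / 1000000 * (1 / (1 + c * (22 / 29))) ^ 2
    + 525182 / 10000000 * (1 / (1 + c * (28 / 13))) ^ 2
    + 154713 / 100000000 * (1 / (1 + c * (55 / 12))) ^ 2

lemma newton_integral (c y1 y2 y3 : ℝ) (hc : 0 ≤ c)
    (h1 : y1 = 1 / (1 + c * (22 / 29))) (h2 : y2 = 1 / (1 + c * (28 / 13)))
    (h3 : y3 = 1 / (1 + c * (55 / 12))) :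
    1 / 4 + (-(c * (y1 * (1 + y1)))) * (1 / 4)
      + (c ^ 2 * y1 * (y1 * (1 + 2 * y1))) * (43 / 232)
      + (-(c ^ 3 * y1 ^ 2 * (y2 * (1 + 2 * y1 + y2)))) * (1093 / 3364)
      + (c ^ 4 * y1 ^ 2 * y2 * (y2 * (1 + 2 * y1 + 2 * y2))) * (22135 / 87464)
      + (-(c ^ 5 * y1 ^ 2 * y2 ^ 2 * (y3 * (1 + 2 * y1 + 2 * y2 + y3)))) * (698537 / 1137032)
      + (c ^ 6 * y1 ^ 2 * y2 ^ 2 * y3 * (y3 * (1 + 2 * y1 + 2 * y2 + 2 * y3)))
          * (18259 / 13644384)
      = 32795909 / 1311833600 + 10323675102428649633 / 60395428473035218816 * y1 ^ 2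
        + 186406888860354747 / 3549383093766211072 * y2 ^ 2
        + 54614826656464896 / 35300795327388483475 * y3 ^ 2
        - 2 * c * (1091334583 / 86266120377536 * y1 ^ 3 + 130266721 / 1271744554112 * y2 ^ 3
          + 47327328 / 13995783648055 * y3 ^ 3) := by
  have e1 : 1 + c * (22 / 29) ≠ 0 := by positivity
  have e2 : 1 + c * (28 / 13) ≠ 0 := by positivity
  have e3 : 1 + c * (55 / 12) ≠ 0 := by positivity
  subst h1 h2 h3
  field_simp
  ring

/-- Radau quadrature bound. -/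
lemma radau (c : ℝ) (hc : 0 ≤ c) :
    ∫⁻ s in Ioi (0 : ℝ), ENNReal.ofReal (s * Real.exp (-(2 * s)) * (1 / (1 + c * s)) ^ 2)
      ≤ ENNReal.ofReal (wt c) := by
  set y1 : ℝ := 1 / (1 + c * (22 / 29)) with h1
  set y2 : ℝ := 1 / (1 + c * (28 / 13)) with h2
  set y3 : ℝ := 1 / (1 + c * (55 / 12)) with h3
  have y1p : 0 ≤ y1 := by positivity
  have y2p : 0 ≤ y2 := by positivity
  have y3p : 0 ≤ y3 := by positivity
  have e1 : y1 * (1 + c * (22 / 29)) = 1 := by
    rw [h1]; exact one_div_mul_cancel (by positivity)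
  have e2 : y2 * (1 + c * (28 / 13)) = 1 := by
    rw [h2]; exact one_div_mul_cancel (by positivity)
  have e3 : y3 * (1 + c * (55 / 12)) = 1 := by
    rw [h3]; exact one_div_mul_cancel (by positivity)
  have hint := newton_integral c y1 y2 y3 hc h1 h2 h3
  have hpt := fun s z => radau_pt c s y1 y2 y3 z hc
  set C1 : ℝ := -(c * (y1 * (1 + y1))) with hC1
  set C2 : ℝ := c ^ 2 * y1 * (y1 * (1 + 2 * y1)) with hC2
  set C3 : ℝ := -(c ^ 3 * y1 ^ 2 * (y2 * (1 + 2 * y1 + y2))) with hC3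
  set C4 : ℝ := c ^ 4 * y1 ^ 2 * y2 * (y2 * (1 + 2 * y1 + 2 * y2)) with hC4
  set C5 : ℝ := -(c ^ 5 * y1 ^ 2 * y2 ^ 2 * (y3 * (1 + 2 * y1 + 2 * y2 + y3))) with hC5
  set C6 : ℝ := c ^ 6 * y1 ^ 2 * y2 ^ 2 * y3 * (y3 * (1 + 2 * y1 + 2 * y2 + 2 * y3)) with hC6
  clear_value C1 C2 C3 C4 C5 C6
  set a : ℕ → ℝ := fun n =>
    if n = 0 then 1 else if n = 1 then C1 + C2 * (-22/29) + C3 * (484/841) + C4 * (-13552/10933)
      + C5 * (379456/142129) + C6 * (-5217520/426387)
    else if n = 2 then C2 + C3 * (-44/29) + C4 * (42020/10933) + C5 * (-1352736/142129)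
      + C6 * (6579496/142129)
    else if n = 3 then C3 + C4 * (-1384/377) + C5 * (1670068/142129) + C6 * (-27021643/426387)
    else if n = 4 then C4 + C5 * (-2196/377) + C6 * (5464573/142129)
    else if n = 5 then C5 + C6 * (-47087/4524) else C6 with ha
  obtain ⟨hI, hE⟩ := poly_integral a 7
  have hle : ∀ s ∈ Ioi (0 : ℝ), s * Real.exp (-(2 * s)) * (1 / (1 + c * s)) ^ 2
      ≤ s * Real.exp (-(2 * s)) * ∑ n ∈ Finset.range 7, a n * s ^ n := by
    intro s hs
    have hs' : (0 : ℝ) < s := hs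
    refine mul_le_mul_of_nonneg_left ?_ (by positivity)
    have h := hpt s (1 / (1 + c * s)) hs'.le e1 e2 e3 (one_div_mul_cancel (by positivity))
    refine h.trans_eq ?_
    simp only [Finset.sum_range_succ, Finset.sum_range_zero, ha]
    norm_num
    ring
  calc ∫⁻ s in Ioi (0 : ℝ), ENNReal.ofReal (s * Real.exp (-(2 * s)) * (1 / (1 + c * s)) ^ 2)
      ≤ ∫⁻ s in Ioi (0 : ℝ), ENNReal.ofReal (s * Real.exp (-(2 * s))
          * ∑ n ∈ Finset.range 7, a n * s ^ n) :=
        setLIntegral_mono' measurableSet_Ioi fun s hs => ENNReal.ofReal_le_ofReal (hle s hs)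
    _ = ENNReal.ofReal (∫ s in Ioi (0 : ℝ), s * Real.exp (-(2 * s))
          * ∑ n ∈ Finset.range 7, a n * s ^ n) := by
        rw [ofReal_integral_eq_lintegral_ofReal hI]
        refine (ae_restrict_iff' measurableSet_Ioi).2 (Filter.Eventually.of_forall fun s hs => ?_)
        have hs' : (0 : ℝ) < s := hs
        exact le_trans (by positivity) (hle s hs)
    _ ≤ ENNReal.ofReal (wt c) := by
        refine ENNReal.ofReal_le_ofReal ?_
        rw [hE]
        have hneg : 0 ≤ 2 * c * (1091334583 / 86266120377536 * y1 ^ 3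
            + 130266721 / 1271744554112 * y2 ^ 3 + 47327328 / 13995783648055 * y3 ^ 3) := by
          positivity
        have hsum : ∑ n ∈ Finset.range 7, a n * (((n + 1).factorial : ℝ) / 2 ^ (n + 2))
            = 1 / 4 + C1 * (1 / 4) + C2 * (43 / 232) + C3 * (1093 / 3364) + C4 * (22135 / 87464)
              + C5 * (698537 / 1137032) + C6 * (18259 / 13644384) := by
          simp only [Finset.sum_range_succ, Finset.sum_range_zero, ha, Nat.factorial]
          norm_num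
          ring
        rw [hsum, hint, wt]
        nlinarith [sq_nonneg y1, sq_nonneg y2, sq_nonneg y3]

/-- Lebesgue measure on the half line. -/
noncomputable abbrev nu : Measure ℝ := volume.restrict (Ici 0)

/-- The quadrant measure. -/
noncomputable abbrev PP : Measure (ℝ × ℝ) := nu.prod nu

lemma restrict_pi3 :
    (volume : Measure (Fin 3 → ℝ)).restrict (Ici 0) = Measure.pi (fun _ : Fin 3 => nu) := by
  have h : (Ici (0 : Fin 3 → ℝ)) = Set.univ.pi (fun _ : Fin 3 => Ici (0 : ℝ)) := by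
    ext v
    simp [Pi.le_def]
  rw [h, volume_pi, Measure.restrict_pi_pi]

lemma split3 (F : (Fin 3 → ℝ) → ℝ≥0∞) (hF : Measurable F) :
    ∫⁻ v in Ici (0 : Fin 3 → ℝ), F v = ∫⁻ p, ∫⁻ a, F ![a, p.1, p.2] ∂nu ∂PP := by
  rw [restrict_pi3]
  have h1 := measurePreserving_piFinSuccAbove (fun _ : Fin 3 => nu) 0
  have h2 := measurePreserving_finTwoArrow nu
  have e1 : ∫⁻ v, F v ∂(Measure.pi fun _ : Fin 3 => nu)
      = ∫⁻ q : ℝ × (Fin 2 → ℝ), F ((MeasurableEquiv.piFinSuccAbove (fun _ : Fin 3 => ℝ) 0).symm q)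
          ∂(nu.prod (Measure.pi fun _ : Fin 2 => nu)) := by
    have := (h1.symm (MeasurableEquiv.piFinSuccAbove (fun _ : Fin 3 => ℝ) 0)).lintegral_comp hF
    exact this.symm
  rw [e1, lintegral_prod_symm]
  · have e2 : ∀ G : (Fin 2 → ℝ) → ℝ≥0∞, Measurable G →
        ∫⁻ w, G w ∂(Measure.pi fun _ : Fin 2 => nu) = ∫⁻ p, G ![p.1, p.2] ∂PP := by
      intro G hG
      have := (h2.symm MeasurableEquiv.finTwoArrow).lintegral_comp hG
      rw [← this]
      rfl
    rw [e2]
    · refine lintegral_congr fun p => lintegral_congr fun a => ?_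
      congr 1
      ext i
      fin_cases i <;> rfl
    · exact Measurable.lintegral_prod_left' (hF.comp (MeasurableEquiv.measurable _))
  · exact (hF.comp (MeasurableEquiv.measurable _)).aemeasurable

lemma conv (g : ℝ → ℝ≥0∞) (hg : Measurable g) :
    ∫⁻ x, ∫⁻ x', g (x + x') ∂nu ∂nu = ∫⁻ s in Ioi (0 : ℝ), ENNReal.ofReal s * g s := by
  have h1 : ∀ x : ℝ, ∫⁻ x', g (x + x') ∂nu = ∫⁻ s, (Ici x).indicator g s := by
    intro x
    rw [← lintegral_add_left_eq_self (fun s => (Ici x).indicator g s) x,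
      ← lintegral_indicator measurableSet_Ici]
    refine lintegral_congr fun s => ?_
    by_cases hs : 0 ≤ s
    · rw [indicator_of_mem (by exact hs), indicator_of_mem (by simpa using hs)]
    · rw [indicator_of_notMem (by exact hs), indicator_of_notMem (by simpa using hs)]
  simp only [h1]
  rw [lintegral_lintegral_swap]
  · rw [← lintegral_indicator measurableSet_Ioi]
    refine lintegral_congr fun s => ?_
    have h2 : ∀ x : ℝ, (Ici x).indicator g s = (Iic s).indicator (fun _ => g s) x := by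
      intro x
      by_cases hx : x ≤ s
      · rw [indicator_of_mem (by exact hx), indicator_of_mem (by exact hx)]
      · rw [indicator_of_notMem (by exact hx), indicator_of_notMem (by exact hx)]
    simp only [h2]
    rw [lintegral_indicator measurableSet_Iic, setLIntegral_const,
      Measure.restrict_apply measurableSet_Iic]
    have h3 : Iic s ∩ Ici (0 : ℝ) = Icc 0 s := by
      ext x; simp [and_comm]
    rw [h3, Real.volume_Icc, sub_zero]
    by_cases hs : 0 < s
    · rw [indicator_of_mem (by exact hs), mul_comm]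
    · rw [indicator_of_notMem (by exact hs), ENNReal.ofReal_of_nonpos (not_lt.1 hs), mul_zero]
  · refine Measurable.aemeasurable ?_
    have : (Function.uncurry fun x s : ℝ => (Ici x).indicator g s)
        = {q : ℝ × ℝ | q.1 ≤ q.2}.indicator (fun q => g q.2) := by
      ext q
      rcases q with ⟨x, s⟩
      by_cases hx : x ≤ s
      · simp only [Function.uncurry_apply_pair]
        rw [indicator_of_mem (by exact hx), indicator_of_mem (by exact hx)]
      · simp only [Function.uncurry_apply_pair]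
        rw [indicator_of_notMem (by exact hx), indicator_of_notMem (by exact hx)]
    rw [this]
    exact (hg.comp measurable_snd).indicator (measurableSet_le measurable_fst measurable_snd)

/-- Cauchy-Schwarz for `lintegral`. -/
lemma cs {α : Type*} [MeasurableSpace α] (μ : Measure α) (f g : α → ℝ≥0∞)
    (hf : AEMeasurable f μ) (hg : AEMeasurable g μ) :
    (∫⁻ x, f x * g x ∂μ) ^ 2 ≤ (∫⁻ x, f x ^ 2 ∂μ) * (∫⁻ x, g x ^ 2 ∂μ) := by
  have h := ENNReal.lintegral_mul_le_Lp_mul_Lq μ Real.HolderConjugate.two_two hf hg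
  have h2 := pow_le_pow_left' h 2
  refine h2.trans_eq ?_
  rw [mul_pow]
  simp only [← ENNReal.rpow_natCast, ← ENNReal.rpow_mul]
  norm_num

lemma measurable_Q : Measurable (fun w : (Fin 3 → ℝ) × (Fin 3 → ℝ) => Q w.1 w.2) := by
  unfold Q
  fun_prop

lemma measurable_T (f : (Fin 3 → ℝ) → ℝ≥0∞) (hf : Measurable f) : Measurable (T f) := by
  unfold T
  exact Measurable.lintegral_prod_right' (f := fun w : (Fin 3 → ℝ) × (Fin 3 → ℝ) =>
    Q w.1 w.2 * f w.2) (measurable_Q.mul (hf.comp measurable_snd))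

lemma measurable_iter (k : ℕ) : Measurable (T^[k] (fun _ => 1)) := by
  induction k with
  | zero => exact measurable_const
  | succ k ih => rw [Function.iterate_succ_apply']; exact measurable_T _ ih

/-- The weight `e^{-(x+y)}`. -/
noncomputable def E (p : ℝ × ℝ) : ℝ≥0∞ := ENNReal.ofReal (Real.exp (-(p.1 + p.2)))

lemma measurable_E : Measurable E := by
  unfold E; fun_prop

/-- Reduced functions on the quadrant. -/
noncomputable def G (k : ℕ) (p : ℝ × ℝ) : ℝ≥0∞ :=
  E p * ∫⁻ a, ENNReal.ofReal (Real.exp (-(2 * a))) * (T^[k] (fun _ => 1)) ![a, p.1, p.2] ∂nu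

/-- The reduced kernel. -/
noncomputable def K (p q : ℝ × ℝ) : ℝ≥0∞ :=
  E p * E q * ∫⁻ a, ENNReal.ofReal (Real.exp (-((2 + (p.1 + q.1) * (p.2 + q.2)) * a))) ∂nu

lemma measurable_vec : Measurable (fun w : (ℝ × ℝ) × ℝ => (![w.2, w.1.1, w.1.2] : Fin 3 → ℝ)) := by
  refine measurable_pi_lambda _ fun i => ?_
  fin_cases i
  · exact measurable_snd
  · exact measurable_fst.fst
  · exact measurable_fst.snd

lemma measurable_G (k : ℕ) : Measurable (G k) := by
  unfold G
  refine measurable_E.mul ?_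
  refine Measurable.lintegral_prod_right' (f := fun w : (ℝ × ℝ) × ℝ =>
    ENNReal.ofReal (Real.exp (-(2 * w.2))) * (T^[k] (fun _ => 1)) ![w.2, w.1.1, w.1.2]) ?_
  exact (by fun_prop : Measurable fun w : (ℝ × ℝ) × ℝ =>
    ENNReal.ofReal (Real.exp (-(2 * w.2)))).mul ((measurable_iter k).comp measurable_vec)

lemma measurable_K : Measurable (fun w : (ℝ × ℝ) × (ℝ × ℝ) => K w.1 w.2) := by
  unfold K
  refine ((measurable_E.comp measurable_fst).mul (measurable_E.comp measurable_snd)).mul ?_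
  exact Measurable.lintegral_prod_right' (f := fun w : ((ℝ × ℝ) × (ℝ × ℝ)) × ℝ =>
    ENNReal.ofReal (Real.exp (-((2 + (w.1.1.1 + w.1.2.1) * (w.1.1.2 + w.1.2.2)) * w.2))))
    (by fun_prop)

lemma T_step (k : ℕ) (u : Fin 3 → ℝ) :
    (T^[k + 1] (fun _ => 1)) u
      = ∫⁻ p, ENNReal.ofReal (Real.exp (-(u 0 * (u 1 + p.1) * (u 2 + p.2)))) * (E p * G k p)
          ∂PP := by
  rw [Function.iterate_succ_apply', T, split3]
  · refine lintegral_congr fun p => ?_
    rw [G, ← mul_assoc, ← mul_assoc, ← lintegral_const_mul']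
    · refine lintegral_congr fun a => ?_
      rw [← mul_assoc]
      congr 1
      rw [Q, E, ← ENNReal.ofReal_mul (by positivity), ← ENNReal.ofReal_mul (by positivity),
        ← ENNReal.ofReal_mul (by positivity), ← Real.exp_add, ← Real.exp_add, ← Real.exp_add]
      congr 2
      simp
      ring
    · refine ENNReal.mul_ne_top (ENNReal.mul_ne_top ?_ ?_) ?_ <;> simp [E]
  · exact (measurable_Q.comp (measurable_const.prodMk measurable_id)).mul (measurable_iter k)

lemma G_step (k : ℕ) (p : ℝ × ℝ) : G (k + 1) p = ∫⁻ q, K p q * G k q ∂PP := by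
  have hm : Measurable (fun w : ℝ × (ℝ × ℝ) => ENNReal.ofReal (Real.exp (-(2 * w.1)))
      * (ENNReal.ofReal (Real.exp (-(w.1 * (p.1 + w.2.1) * (p.2 + w.2.2)))) *
        (E w.2 * G k w.2))) := by
    have h1 : Measurable (fun w : ℝ × (ℝ × ℝ) => ENNReal.ofReal (Real.exp (-(2 * w.1)))) := by
      fun_prop
    have h2 : Measurable (fun w : ℝ × (ℝ × ℝ) =>
        ENNReal.ofReal (Real.exp (-(w.1 * (p.1 + w.2.1) * (p.2 + w.2.2))))) := by
      fun_prop
    exact h1.mul (h2.mul ((measurable_E.comp measurable_snd).mul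
      ((measurable_G k).comp measurable_snd)))
  rw [G]
  have e1 : ∀ a : ℝ, ENNReal.ofReal (Real.exp (-(2 * a)))
      * (T^[k + 1] (fun _ => 1)) ![a, p.1, p.2]
      = ∫⁻ q, ENNReal.ofReal (Real.exp (-(2 * a)))
        * (ENNReal.ofReal (Real.exp (-(a * (p.1 + q.1) * (p.2 + q.2)))) * (E q * G k q)) ∂PP := by
    intro a
    rw [T_step, ← lintegral_const_mul' _ _ (by simp)]
    rfl
  simp only [e1]
  rw [lintegral_lintegral_swap (by exact hm.aemeasurable),
    ← lintegral_const_mul' _ _ (by simp [E])]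
  refine lintegral_congr fun q => ?_
  have e2 : ∀ a : ℝ, ENNReal.ofReal (Real.exp (-(2 * a)))
        * (ENNReal.ofReal (Real.exp (-(a * (p.1 + q.1) * (p.2 + q.2)))) * (E q * G k q))
      = ENNReal.ofReal (Real.exp (-((2 + (p.1 + q.1) * (p.2 + q.2)) * a))) * (E q * G k q) := by
    intro a
    rw [← mul_assoc, ← ENNReal.ofReal_mul (by positivity), ← Real.exp_add]
    congr 3
    ring
  simp only [e2]
  rw [lintegral_mul_const _ (by fun_prop), K]
  ring

/-- The kernel as a function of sums. -/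
noncomputable def Phi (s t : ℝ) : ℝ≥0∞ :=
  ENNReal.ofReal (Real.exp (-(2 * s))) * ENNReal.ofReal (Real.exp (-(2 * t)))
    * ENNReal.ofReal ((1 / (2 + t * s)) ^ 2)

lemma measurable_Phi : Measurable (fun w : ℝ × ℝ => Phi w.1 w.2) := by
  unfold Phi
  fun_prop

lemma inner_exp (b : ℝ) (hb : 0 < b) :
    ∫⁻ a, ENNReal.ofReal (Real.exp (-(b * a))) ∂nu = ENNReal.ofReal (1 / b) := by
  have h : nu = volume.restrict (Ioi (0 : ℝ)) := by
    rw [nu, restrict_Ioi_eq_restrict_Ici]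
  rw [h, ← ofReal_integral_eq_lintegral_ofReal]
  · congr 1
    have := integral_exp_mul_Ioi (a := -b) (by linarith) 0
    simpa [neg_div, neg_mul] using this
  · have h0 := integrableOn_exp_mul_Ioi (a := -b) (by linarith) 0
    simp only [neg_mul] at h0
    exact h0
  · exact Filter.Eventually.of_forall fun s => (Real.exp_pos _).le

lemma K_sq (p q : ℝ × ℝ) (hp1 : 0 ≤ p.1) (hp2 : 0 ≤ p.2) (hq1 : 0 ≤ q.1) (hq2 : 0 ≤ q.2) :
    K p q ^ 2 = Phi (p.1 + q.1) (p.2 + q.2) := by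
  have h : 0 < 2 + (p.1 + q.1) * (p.2 + q.2) := by positivity
  rw [K, inner_exp _ h, Phi, E, E]
  rw [← ENNReal.ofReal_mul (by positivity), ← ENNReal.ofReal_mul (by positivity),
    ← ENNReal.ofReal_pow (by positivity), ← ENNReal.ofReal_mul (by positivity),
    ← ENNReal.ofReal_mul (by positivity)]
  congr 1
  rw [mul_pow, ← Real.exp_add, ← Real.exp_add, ← Real.exp_nat_mul, mul_comm (p.2 + q.2)]
  congr 2
  push_cast
  ring

lemma PP_eq : PP = (volume : Measure (ℝ × ℝ)).restrict (Ici 0 ×ˢ Ici 0) := by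
  rw [PP, nu, Measure.prod_restrict]
  rfl

lemma lint_nonneg (f g : ℝ × ℝ → ℝ≥0∞) (h : ∀ p : ℝ × ℝ, 0 ≤ p.1 → 0 ≤ p.2 → f p = g p) :
    ∫⁻ p, f p ∂PP = ∫⁻ p, g p ∂PP := by
  rw [PP_eq]
  exact setLIntegral_congr_fun (measurableSet_Ici.prod measurableSet_Ici)
    fun p hp => h p hp.1 hp.2

lemma HS_eq : ∫⁻ p, ∫⁻ q, K p q ^ 2 ∂PP ∂PP
    = ∫⁻ s in Ioi (0 : ℝ), ENNReal.ofReal s
        * ∫⁻ t in Ioi (0 : ℝ), ENNReal.ofReal t * Phi s t := by
  have e1 : ∫⁻ p, ∫⁻ q, K p q ^ 2 ∂PP ∂PP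
      = ∫⁻ p : ℝ × ℝ, ∫⁻ q : ℝ × ℝ, Phi (p.1 + q.1) (p.2 + q.2) ∂PP ∂PP :=
    lint_nonneg _ _ fun p hp1 hp2 => lint_nonneg _ _ fun q hq1 hq2 => K_sq p q hp1 hp2 hq1 hq2
  rw [e1]
  have m4 : Measurable (fun w : (ℝ × ℝ) × (ℝ × ℝ) => Phi (w.1.1 + w.2.1) (w.1.2 + w.2.2)) := by
    unfold Phi
    fun_prop
  rw [lintegral_prod _ (Measurable.lintegral_prod_right' m4).aemeasurable]
  have e2 : ∀ x y : ℝ, ∫⁻ q : ℝ × ℝ, Phi (x + q.1) (y + q.2) ∂PP
      = ∫⁻ x', ∫⁻ y', Phi (x + x') (y + y') ∂nu ∂nu := by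
    intro x y
    rw [lintegral_prod _ (Measurable.aemeasurable (by unfold Phi; fun_prop))]
  simp only [e2]
  have e3 : ∀ x : ℝ, ∫⁻ y, ∫⁻ x', ∫⁻ y', Phi (x + x') (y + y') ∂nu ∂nu ∂nu
      = ∫⁻ x', ∫⁻ y, ∫⁻ y', Phi (x + x') (y + y') ∂nu ∂nu ∂nu := by
    intro x
    rw [lintegral_lintegral_swap]
    have : Measurable (fun w : (ℝ × ℝ) × ℝ => Phi (x + w.1.2) (w.1.1 + w.2)) := by
      unfold Phi; fun_prop
    exact (Measurable.lintegral_prod_right' this).aemeasurable
  simp only [e3]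
  have e4 : ∀ s : ℝ, ∫⁻ y, ∫⁻ y', Phi s (y + y') ∂nu ∂nu
      = ∫⁻ t in Ioi (0 : ℝ), ENNReal.ofReal t * Phi s t := by
    intro s
    exact conv (fun t => Phi s t) (by unfold Phi; fun_prop)
  simp only [e4]
  refine conv (fun s => ∫⁻ t in Ioi (0 : ℝ), ENNReal.ofReal t * Phi s t) ?_
  exact Measurable.lintegral_prod_right' (f := fun w : ℝ × ℝ => ENNReal.ofReal w.2 * Phi w.1 w.2)
    (by unfold Phi; fun_prop)

/-- The integrand of the quadrature. -/
noncomputable def RR (c s : ℝ) : ℝ := s * Real.exp (-(2 * s)) * (1 / (1 + c * s)) ^ 2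

lemma RR_nonneg (c s : ℝ) (hs : 0 ≤ s) : 0 ≤ RR c s := by
  unfold RR; positivity

lemma measurable_RR (c : ℝ) : Measurable (RR c) := by
  unfold RR; fun_prop

lemma outer : ∫⁻ s in Ioi (0 : ℝ), ENNReal.ofReal (s * Real.exp (-(2 * s)) * wt (s / 2))
    ≤ ENNReal.ofReal (250001 / 10000000 * wt 0 + 170935 / 1000000 * wt (11 / 29)
      + 525182 / 10000000 * wt (14 / 13) + 154713 / 100000000 * wt (55 / 24)) := by
  have wtn : ∀ c : ℝ, 0 ≤ wt c := by
    intro c; unfold wt; positivity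
  have e1 : ∀ s ∈ Ioi (0 : ℝ), ENNReal.ofReal (s * Real.exp (-(2 * s)) * wt (s / 2))
      = ENNReal.ofReal (250001 / 10000000) * ENNReal.ofReal (RR 0 s)
        + ENNReal.ofReal (170935 / 1000000) * ENNReal.ofReal (RR (11 / 29) s)
        + ENNReal.ofReal (525182 / 10000000) * ENNReal.ofReal (RR (14 / 13) s)
        + ENNReal.ofReal (154713 / 100000000) * ENNReal.ofReal (RR (55 / 24) s) := by
    intro s hs
    have hs' : (0 : ℝ) < s := hs
    have r0 := RR_nonneg 0 s hs'.le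
    have r1 := RR_nonneg (11 / 29) s hs'.le
    have r2 := RR_nonneg (14 / 13) s hs'.le
    have r3 := RR_nonneg (55 / 24) s hs'.le
    rw [← ENNReal.ofReal_mul (by norm_num), ← ENNReal.ofReal_mul (by norm_num),
      ← ENNReal.ofReal_mul (by norm_num), ← ENNReal.ofReal_mul (by norm_num),
      ← ENNReal.ofReal_add (by positivity) (by positivity),
      ← ENNReal.ofReal_add (by positivity) (by positivity),
      ← ENNReal.ofReal_add (by positivity) (by positivity)]
    congr 1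
    have a1 : s / 2 * (22 / 29) = 11 / 29 * s := by ring
    have a2 : s / 2 * (28 / 13) = 14 / 13 * s := by ring
    have a3 : s / 2 * (55 / 12) = 55 / 24 * s := by ring
    rw [wt, a1, a2, a3]
    unfold RR
    ring
  rw [setLIntegral_congr_fun measurableSet_Ioi e1]
  have m := fun c : ℝ => (measurable_RR c).ennreal_ofReal
  rw [lintegral_add_right _ ((m _).const_mul _), lintegral_add_right _ ((m _).const_mul _),
    lintegral_add_right _ ((m _).const_mul _), lintegral_const_mul _ (m _),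
    lintegral_const_mul _ (m _), lintegral_const_mul _ (m _), lintegral_const_mul _ (m _)]
  have w0 := wtn 0
  have w1 := wtn (11 / 29)
  have w2 := wtn (14 / 13)
  have w3 := wtn (55 / 24)
  rw [ENNReal.ofReal_add (by positivity) (by positivity),
    ENNReal.ofReal_add (by positivity) (by positivity),
    ENNReal.ofReal_add (by positivity) (by positivity),
    ENNReal.ofReal_mul (by norm_num), ENNReal.ofReal_mul (by norm_num),
    ENNReal.ofReal_mul (by norm_num), ENNReal.ofReal_mul (by norm_num)]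
  have q0 := radau 0 le_rfl
  have q1 := radau (11 / 29) (by norm_num)
  have q2 := radau (14 / 13) (by norm_num)
  have q3 := radau (55 / 24) (by norm_num)
  unfold RR
  gcongr

lemma HS_le : ∫⁻ p, ∫⁻ q, K p q ^ 2 ∂PP ∂PP ≤ ENNReal.ofReal (0.5642 / 64) := by
  rw [HS_eq]
  have e1 : ∀ s ∈ Ioi (0 : ℝ), ENNReal.ofReal s
        * ∫⁻ t in Ioi (0 : ℝ), ENNReal.ofReal t * Phi s t
      ≤ ENNReal.ofReal (1 / 4) * ENNReal.ofReal (s * Real.exp (-(2 * s)) * wt (s / 2)) := by
    intro s hs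
    have hs' : (0 : ℝ) < s := hs
    have e2 : ∀ t ∈ Ioi (0 : ℝ), ENNReal.ofReal t * Phi s t
        = ENNReal.ofReal (Real.exp (-(2 * s)) * (1 / 4))
          * ENNReal.ofReal (t * Real.exp (-(2 * t)) * (1 / (1 + s / 2 * t)) ^ 2) := by
      intro t ht
      have ht' : (0 : ℝ) < t := ht
      rw [Phi, ← ENNReal.ofReal_mul (by positivity), ← ENNReal.ofReal_mul (by positivity),
        ← ENNReal.ofReal_mul (by positivity), ← ENNReal.ofReal_mul (by positivity)]
      congr 1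
      have : (1 / (2 + t * s)) ^ 2 = 1 / 4 * (1 / (1 + s / 2 * t)) ^ 2 := by
        have h1 : 2 + t * s ≠ 0 := by positivity
        have h2 : 1 + s / 2 * t ≠ 0 := by positivity
        have h3 : 2 + t * s = 2 * (1 + s / 2 * t) := by ring
        rw [h3]
        field_simp
        norm_num
      rw [this]
      ring
    rw [setLIntegral_congr_fun measurableSet_Ioi e2, lintegral_const_mul _ (by fun_prop)]
    have q := radau (s / 2) (by positivity)
    calc ENNReal.ofReal s * (ENNReal.ofReal (Real.exp (-(2 * s)) * (1 / 4)) * _)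
        ≤ ENNReal.ofReal s * (ENNReal.ofReal (Real.exp (-(2 * s)) * (1 / 4))
          * ENNReal.ofReal (wt (s / 2))) := by gcongr
      _ = _ := by
        rw [← ENNReal.ofReal_mul (by positivity), ← ENNReal.ofReal_mul (by positivity),
          ← ENNReal.ofReal_mul (by norm_num)]
        congr 1
        ring
  calc _ ≤ ∫⁻ s in Ioi (0 : ℝ), ENNReal.ofReal (1 / 4)
          * ENNReal.ofReal (s * Real.exp (-(2 * s)) * wt (s / 2)) :=
        setLIntegral_mono' measurableSet_Ioi e1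
    _ ≤ ENNReal.ofReal (1 / 4) * ENNReal.ofReal (250001 / 10000000 * wt 0
          + 170935 / 1000000 * wt (11 / 29)
          + 525182 / 10000000 * wt (14 / 13) + 154713 / 100000000 * wt (55 / 24)) := by
        rw [lintegral_const_mul' _ _ (by simp)]
        gcongr
        exact outer
    _ ≤ _ := by
        rw [← ENNReal.ofReal_mul (by norm_num)]
        refine ENNReal.ofReal_le_ofReal ?_
        unfold wt
        norm_num

lemma nu_exp : ∫⁻ a, ENNReal.ofReal (Real.exp (-(2 * a))) ∂nu = ENNReal.ofReal (1 / 2) :=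
  inner_exp 2 (by norm_num)

lemma E_sq : ∫⁻ p, E p ^ 2 ∂PP = ENNReal.ofReal (1 / 2) * ENNReal.ofReal (1 / 2) := by
  have e : ∀ p : ℝ × ℝ, E p ^ 2 = ENNReal.ofReal (Real.exp (-(2 * p.1)))
      * ENNReal.ofReal (Real.exp (-(2 * p.2))) := by
    intro p
    rw [E, ← ENNReal.ofReal_pow (by positivity), ← ENNReal.ofReal_mul (by positivity),
      ← Real.exp_add, ← Real.exp_nat_mul]
    congr 2
    push_cast
    ring
  simp only [e]
  rw [lintegral_prod _ (by fun_prop)]
  have e2 : ∀ x : ℝ, ∫⁻ y, ENNReal.ofReal (Real.exp (-(2 * x)))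
      * ENNReal.ofReal (Real.exp (-(2 * y))) ∂nu
      = ENNReal.ofReal (Real.exp (-(2 * x))) * ENNReal.ofReal (1 / 2) := by
    intro x
    rw [lintegral_const_mul' _ _ (by simp), nu_exp]
  simp only [e2]
  rw [lintegral_mul_const' _ _ (by simp), nu_exp]

lemma N_zero : ∫⁻ p, G 0 p ^ 2 ∂PP ≠ ⊤ := by
  have e : ∀ p : ℝ × ℝ, G 0 p ^ 2 = ENNReal.ofReal (1 / 2) ^ 2 * E p ^ 2 := by
    intro p
    rw [G]
    simp only [Function.iterate_zero, id, mul_one]
    rw [nu_exp, mul_pow, mul_comm]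
  simp only [e]
  rw [lintegral_const_mul' _ _ (by simp), E_sq]
  simp [ENNReal.mul_eq_top]

lemma N_step (k : ℕ) : ∫⁻ p, G (k + 1) p ^ 2 ∂PP
    ≤ ENNReal.ofReal (0.5642 / 64) * ∫⁻ p, G k p ^ 2 ∂PP := by
  calc ∫⁻ p, G (k + 1) p ^ 2 ∂PP
      ≤ ∫⁻ p, (∫⁻ q, K p q ^ 2 ∂PP) * ∫⁻ q, G k q ^ 2 ∂PP ∂PP := by
        refine lintegral_mono fun p => ?_
        rw [G_step]
        exact cs PP (fun q => K p q) (G k)
          (measurable_K.comp (measurable_const.prodMk measurable_id)).aemeasurable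
          (measurable_G k).aemeasurable
    _ = (∫⁻ p, ∫⁻ q, K p q ^ 2 ∂PP ∂PP) * ∫⁻ q, G k q ^ 2 ∂PP := by
        rw [lintegral_mul_const]
        exact Measurable.lintegral_prod_right' (f := fun w : (ℝ × ℝ) × (ℝ × ℝ) => K w.1 w.2 ^ 2)
          (measurable_K.pow_const 2)
    _ ≤ _ := by
        gcongr
        exact HS_le

lemma N_le (k : ℕ) : ∫⁻ p, G k p ^ 2 ∂PP
    ≤ ENNReal.ofReal (0.5642 / 64) ^ k * ∫⁻ p, G 0 p ^ 2 ∂PP := by
  induction k with
  | zero => simp
  | succ k ih =>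
    refine (N_step k).trans ?_
    rw [pow_succ', mul_assoc]
    gcongr

/-- **The Hilbert-Schmidt growth bound.** -/
theorem hs : Stmt_HS 0.5642 := by
  set r : ℝ≥0∞ := ENNReal.ofReal (√0.5642 / 8) with hr
  have hr0 : r ≠ 0 := by
    rw [hr]
    simp only [ne_eq, ENNReal.ofReal_eq_zero, not_le]
    positivity
  have hrt : r ≠ ⊤ := ENNReal.ofReal_ne_top
  have hr2 : ENNReal.ofReal (0.5642 / 64) = r ^ 2 := by
    rw [hr, ← ENNReal.ofReal_pow (by positivity), div_pow, Real.sq_sqrt (by norm_num)]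
    norm_num
  set C0 : ℝ≥0∞ := (∫⁻ p, E p ^ 2 ∂PP) * ∫⁻ p, G 0 p ^ 2 ∂PP with hC0
  have hC0t : C0 ≠ ⊤ := by
    refine ENNReal.mul_ne_top ?_ N_zero
    rw [E_sq]
    exact ENNReal.mul_ne_top ENNReal.ofReal_ne_top ENNReal.ofReal_ne_top
  refine ⟨(C0 + 1) / r + 1, ?_, ?_⟩
  · exact ENNReal.add_ne_top.2 ⟨ENNReal.div_ne_top (ENNReal.add_ne_top.2 ⟨hC0t, by simp⟩) hr0,
      by simp⟩
  · intro k
    rcases k with _ | k
    · simp only [Function.iterate_zero, id, pow_zero, mul_one]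
      exact le_add_self
    · have h1 : (T^[k + 1] (fun _ => 1)) 0 = ∫⁻ p, E p * G k p ∂PP := by
        rw [T_step]
        simp
      have h2 : ((T^[k + 1] (fun _ => 1)) 0) ^ 2 ≤ ((C0 + 1) * r ^ k) ^ 2 := by
        rw [h1]
        calc (∫⁻ p, E p * G k p ∂PP) ^ 2
            ≤ (∫⁻ p, E p ^ 2 ∂PP) * ∫⁻ p, G k p ^ 2 ∂PP :=
              cs PP E (G k) measurable_E.aemeasurable (measurable_G k).aemeasurable
          _ ≤ (∫⁻ p, E p ^ 2 ∂PP) * (ENNReal.ofReal (0.5642 / 64) ^ k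
                * ∫⁻ p, G 0 p ^ 2 ∂PP) := by
              gcongr
              exact N_le k
          _ = C0 * (r ^ 2) ^ k := by rw [hr2, hC0]; ring
          _ ≤ (C0 + 1) ^ 2 * (r ^ 2) ^ k := by
              gcongr
              calc C0 ≤ C0 + 1 := le_self_add
                _ = (C0 + 1) * 1 := (mul_one _).symm
                _ ≤ (C0 + 1) * (C0 + 1) := by
                    gcongr
                    exact le_add_self
                _ = (C0 + 1) ^ 2 := (sq _).symm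
          _ = ((C0 + 1) * r ^ k) ^ 2 := by ring
      have h3 : (T^[k + 1] (fun _ => 1)) 0 ≤ (C0 + 1) * r ^ k :=
        (ENNReal.pow_right_strictMono two_ne_zero).le_iff_le.1 h2
      refine h3.trans ?_
      calc (C0 + 1) * r ^ k = (C0 + 1) / r * r ^ (k + 1) := by
            rw [pow_succ', ← mul_assoc, ENNReal.div_mul_cancel hr0 hrt]
        _ ≤ ((C0 + 1) / r + 1) * r ^ (k + 1) := by
            gcongr
            exact le_self_add

end Pool.Agent.Helper3.K3
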