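import Pool.Agent.Helper3.K3.Asym

/-!
# From the law to i.i.d. random variables, and the consequence for the limit constant
-/

namespace Pool.Agent.Helper3.K3

open MeasureTheory Filter Topology ProbabilityTheory
open scoped ENNReal

/-- The law of the first `n` of a sequence of i.i.d. uniform points. -/
lemma map_eq_law {Ω : Type*} [MeasurableSpace Ω] {μ : Measure Ω} [IsProbabilityMeasure μ]
    {X : ℕ → Ω → Fin 3 → ℝ} (hX : ∀ i, Measurable (X i)) (hlaw : ∀ i, μ.map (X i) = cube)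
    (hind : iIndepFun X μ) (n : ℕ) :
    μ.map (fun ω (i : Fin n) => X i ω) = law n := by
  have h := (iIndepFun_iff_map_fun_eq_pi_map (fun i : Fin n => (hX i).aemeasurable)).1
    (hind.precomp (g := fun i : Fin n => (i : ℕ)) Fin.val_injective)
  rw [h]
  unfold law
  congr 1
  funext i
  exact hlaw i

lemma measure_le_law {Ω : Type*} [MeasurableSpace Ω] {μ : Measure Ω} [IsProbabilityMeasure μ]
    {X : ℕ → Ω → Fin 3 → ℝ} (hX : ∀ i, Measurable (X i)) (hlaw : ∀ i, μ.map (X i) = cube)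
    (hind : iIndepFun X μ) (n : ℕ) (A : Set (Fin n → Fin 3 → ℝ)) :
    μ {ω | (fun i : Fin n => X i ω) ∈ A} ≤ law n A := by
  rw [← map_eq_law hX hlaw hind n]
  have hm : Measurable (fun ω (i : Fin n) => X i ω) :=
    measurable_pi_lambda _ fun i => hX i
  exact Measure.le_map_apply hm.aemeasurable A

lemma le_of_tendsto {Ω : Type*} [MeasurableSpace Ω] {μ : Measure Ω} [IsProbabilityMeasure μ]
    {L : ℕ → Ω → ℝ} {κ K : ℝ}
    (h : Tendsto (fun n : ℕ => μ {ω | κ * (n : ℝ) ^ ((1 : ℝ) / 3) ≤ L n ω}) atTop (𝓝 0))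
    (hK : ∀ ε : ℝ, 0 < ε → Tendsto (fun n : ℕ =>
      μ {ω | ε < |L n ω / (n : ℝ) ^ ((1 : ℝ) / 3) - K|}) atTop (𝓝 0)) : K ≤ κ := by
  by_contra hlt
  push Not at hlt
  have h2 := hK ((K - κ) / 2) (by linarith)
  have h3 := h.add h2
  rw [add_zero] at h3
  have h4 : ∀ᶠ n : ℕ in atTop, (1 : ℝ≥0∞) ≤
      μ {ω | κ * (n : ℝ) ^ ((1 : ℝ) / 3) ≤ L n ω} +
        μ {ω | (K - κ) / 2 < |L n ω / (n : ℝ) ^ ((1 : ℝ) / 3) - K|} := by
    filter_upwards [eventually_ge_atTop 1] with n hn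
    have hn0 : (0 : ℝ) < (n : ℝ) ^ ((1 : ℝ) / 3) :=
      Real.rpow_pos_of_pos (by exact_mod_cast hn) _
    rw [← measure_univ (μ := μ)]
    refine le_trans (measure_mono ?_) (measure_union_le _ _)
    intro ω _
    by_cases hω : κ * (n : ℝ) ^ ((1 : ℝ) / 3) ≤ L n ω
    · exact Or.inl hω
    · right
      push Not at hω
      have h5 : L n ω / (n : ℝ) ^ ((1 : ℝ) / 3) < κ := by
        rw [div_lt_iff₀ hn0]
        exact hω
      show (K - κ) / 2 < |L n ω / (n : ℝ) ^ ((1 : ℝ) / 3) - K|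
      rw [abs_of_neg (by linarith)]
      linarith
  have h5 := ge_of_tendsto h3 h4
  exact absurd h5 (by simp)

theorem main {I₀ κ : ℝ} (hI : Stmt_HS I₀) (hI0 : 0 < I₀) (hκ : 0 < κ)
    (hk : 6 < κ * (-Real.log (√I₀ / 8)))
    {Ω : Type*} [MeasurableSpace Ω] {μ : Measure Ω} [IsProbabilityMeasure μ]
    {X : ℕ → Ω → Fin 3 → ℝ} (hX : ∀ i, Measurable (X i)) (hlaw : ∀ i, μ.map (X i) = cube)
    (hind : iIndepFun X μ) :
    Tendsto (fun n : ℕ => μ {ω | κ * (n : ℝ) ^ ((1 : ℝ) / 3) ≤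
        (longest (fun i : Fin n => X i ω) : ℝ)}) atTop (𝓝 0) := by
  refine tendsto_of_tendsto_of_tendsto_of_le_of_le tendsto_const_nhds
    (tendsto_law hI hI0 hκ hk) (fun n => zero_le) (fun n => ?_)
  exact measure_le_law hX hlaw hind n {x | κ * (n : ℝ) ^ ((1 : ℝ) / 3) ≤ (longest x : ℝ)}

end Pool.Agent.Helper3.K3
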