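import Pool.Agent.Helper3.K3.Canon

/-!
# The union bound over canonical chains
-/

namespace Pool.Agent.Helper3.K3

open MeasureTheory
open scoped ENNReal

/-- The uniform distribution on the unit cube `[0,1]³`. -/
noncomputable def cube : Measure (Fin 3 → ℝ) := volume.restrict (Set.Icc 0 1)

/-- The law of `n` independent uniform points of the unit cube. -/
noncomputable def law (n : ℕ) : Measure (Fin n → Fin 3 → ℝ) := Measure.pi (fun _ => cube)

lemma volume_Icc01 : volume (Set.Icc (0 : Fin 3 → ℝ) 1) = 1 := by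
  rw [Real.volume_Icc_pi]
  simp

instance : IsProbabilityMeasure cube :=
  ⟨by rw [cube, Measure.restrict_apply_univ, volume_Icc01]⟩

instance (n : ℕ) : IsProbabilityMeasure (law n) := by
  unfold law; infer_instance

lemma ae_mem_Icc (n : ℕ) : ∀ᵐ x ∂(law n), ∀ i, x i ∈ Set.Icc (0 : Fin 3 → ℝ) 1 := by
  rw [ae_all_iff]
  intro i
  have h : ∀ᵐ z ∂cube, z ∈ Set.Icc (0 : Fin 3 → ℝ) 1 := by
    unfold cube
    exact ae_restrict_mem measurableSet_Icc
  exact (Measure.quasiMeasurePreserving_eval (fun _ : Fin n => cube) i).ae h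

lemma measurableSet_mem_Reg (m : ℕ) :
    MeasurableSet {t : (((Fin 3 → ℝ) × (Fin 3 → ℝ)) × (Fin m → Fin 3 → ℝ)) × (Fin 3 → ℝ) |
      t.2 ∈ Reg m t.1.1.1 t.1.1.2 t.1.2} := by
  induction m with
  | zero => simp [Reg]
  | succ m ih =>
    have h1 : MeasurableSet {t : (((Fin 3 → ℝ) × (Fin 3 → ℝ)) × (Fin (m + 1) → Fin 3 → ℝ)) ×
        (Fin 3 → ℝ) | t.2 ∈ Box t.1.1.1 t.1.1.2 (t.1.2 0)} := by
      have e : ∀ f g : (((Fin 3 → ℝ) × (Fin 3 → ℝ)) × (Fin (m + 1) → Fin 3 → ℝ)) ×
          (Fin 3 → ℝ) → ℝ, Measurable f → Measurable g → MeasurableSet {t | f t < g t} :=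
        fun f g hf hg => measurableSet_lt hf hg
      exact ((e (fun t => t.1.1.1 0) (fun t => t.2 0) (by fun_prop) (by fun_prop)).inter
        (e (fun t => t.2 0) (fun t => t.1.1.2 0) (by fun_prop) (by fun_prop))).inter
        (((e (fun t => t.1.1.1 1) (fun t => t.2 1) (by fun_prop) (by fun_prop)).inter
        (e (fun t => t.2 1) (fun t => t.1.2 0 1) (by fun_prop) (by fun_prop))).inter
        ((e (fun t => t.1.1.1 2) (fun t => t.2 2) (by fun_prop) (by fun_prop)).inter
        (e (fun t => t.2 2) (fun t => t.1.2 0 2) (by fun_prop) (by fun_prop))))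
    have h2 : MeasurableSet {t : (((Fin 3 → ℝ) × (Fin 3 → ℝ)) × (Fin (m + 1) → Fin 3 → ℝ)) ×
        (Fin 3 → ℝ) | t.2 ∈ Reg m t.1.1.2 (t.1.2 0) (fun i => t.1.2 i.succ)} := by
      have hm : Measurable (fun t : (((Fin 3 → ℝ) × (Fin 3 → ℝ)) × (Fin (m + 1) → Fin 3 → ℝ)) ×
          (Fin 3 → ℝ) => (((t.1.1.2, t.1.2 0), fun i : Fin m => t.1.2 i.succ), t.2)) := by
        fun_prop
      exact hm ih
    exact h1.union h2

lemma measurableSet_Ch (m : ℕ) : MeasurableSet {y : Fin m → Fin 3 → ℝ | Ch y} := by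
  have : {y : Fin m → Fin 3 → ℝ | Ch y} = ⋂ i : Fin m, ⋂ j : Fin m, ⋂ _ : i < j, ⋂ c : Fin 3,
      {y : Fin m → Fin 3 → ℝ | y i c < y j c} := by
    ext y
    simp only [Set.mem_iInter]
    exact Iff.rfl
  rw [this]
  refine MeasurableSet.iInter fun i => MeasurableSet.iInter fun j => MeasurableSet.iInter fun _ =>
    MeasurableSet.iInter fun c => measurableSet_lt (by fun_prop) (by fun_prop)

lemma cube_compl_Reg {m : ℕ} (y : Fin m → Fin 3 → ℝ) (hc : Ch y) (h0 : ∀ i, 0 ≤ y i)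
    (h1 : ∀ i, y i ≤ 1) :
    cube (Reg m 0 0 y)ᶜ ≤ ENNReal.ofReal (Real.exp (-(S m 0 0 y))) := by
  have hm := measurableSet_Reg 0 0 y (m := m)
  rw [prob_compl_eq_one_sub hm]
  have h : cube (Reg m 0 0 y) = ENNReal.ofReal (S m 0 0 y) := by
    rw [cube, Measure.restrict_apply hm,
      Set.inter_eq_left.2 (Reg_subset 0 0 y le_rfl le_rfl zero_le_one h0 h1),
      volume_Reg 0 0 y le_rfl h0 hc]
  rw [h, ← ENNReal.ofReal_one, ← ENNReal.ofReal_sub _ (S_nonneg 0 0 y le_rfl h0 hc)]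
  apply ENNReal.ofReal_le_ofReal
  linarith [Real.add_one_le_exp (-(S m 0 0 y))]

lemma law_event_aux {n m : ℕ} (p : Fin n → Prop) [DecidablePred p] (σ : Fin m ≃ Subtype p) :
    law n {x | Ch (fun i => x (σ i).1) ∧ (∀ j, x j ∉ Reg m 0 0 (fun i => x (σ i).1))} ≤
      ∫⁻ y in {y | Ch y}, (cube (Reg m 0 0 y)ᶜ) ^ (n - m) ∂(law m) := by
  have he := measurePreserving_piEquivPiSubtypeProd (fun _ : Fin n => cube) p
  let r : (Subtype p → Fin 3 → ℝ) → (Fin m → Fin 3 → ℝ) := fun a k => a (σ k)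
  have hr : Measurable r := by
    refine measurable_pi_lambda _ fun k => ?_
    exact measurable_pi_apply _
  have hA1 : MeasurableSet {t : (Subtype p → Fin 3 → ℝ) × ({j // ¬ p j} → Fin 3 → ℝ) |
      Ch (r t.1)} := (hr.comp measurable_fst) (measurableSet_Ch m)
  have hA2 : MeasurableSet {t : (Subtype p → Fin 3 → ℝ) × ({j // ¬ p j} → Fin 3 → ℝ) |
      ∀ j, t.2 j ∉ Reg m 0 0 (r t.1)} := by
    have : {t : (Subtype p → Fin 3 → ℝ) × ({j // ¬ p j} → Fin 3 → ℝ) |
        ∀ j, t.2 j ∉ Reg m 0 0 (r t.1)} = ⋂ j, {t | t.2 j ∈ Reg m 0 0 (r t.1)}ᶜ := by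
      ext t
      simp only [Set.mem_iInter]
      exact Iff.rfl
    rw [this]
    refine MeasurableSet.iInter fun j => MeasurableSet.compl ?_
    have hm : Measurable (fun t : (Subtype p → Fin 3 → ℝ) × ({j // ¬ p j} → Fin 3 → ℝ) =>
        ((((0 : Fin 3 → ℝ), (0 : Fin 3 → ℝ)), r t.1), t.2 j)) := by
      refine Measurable.prodMk (Measurable.prodMk measurable_const (hr.comp measurable_fst)) ?_
      exact (measurable_pi_apply j).comp measurable_snd
    exact hm (measurableSet_mem_Reg m)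
  have hA := hA1.inter hA2
  set A : Set ((Subtype p → Fin 3 → ℝ) × ({j // ¬ p j} → Fin 3 → ℝ)) :=
    {t | Ch (r t.1)} ∩ {t | ∀ j, t.2 j ∉ Reg m 0 0 (r t.1)} with hAdef
  have hsub : {x : Fin n → Fin 3 → ℝ | Ch (fun i => x (σ i).1) ∧
      (∀ j, x j ∉ Reg m 0 0 (fun i => x (σ i).1))} ⊆
      (MeasurableEquiv.piEquivPiSubtypeProd (fun _ : Fin n => Fin 3 → ℝ) p) ⁻¹' A := by
    intro x hx
    exact ⟨hx.1, fun j => hx.2 j⟩
  have hcard : Fintype.card {j // ¬ p j} = n - m := by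
    rw [Fintype.card_subtype_compl, Fintype.card_fin, ← Fintype.card_congr σ, Fintype.card_fin]
  have hslice : ∀ a, (Measure.pi (fun _ : {j // ¬ p j} => cube)) (Prod.mk a ⁻¹' A) ≤
      Set.indicator {y | Ch y} (fun y => (cube (Reg m 0 0 y)ᶜ) ^ (n - m)) (r a) := by
    intro a
    by_cases hc : Ch (r a)
    · rw [Set.indicator_of_mem (by exact hc)]
      calc (Measure.pi (fun _ : {j // ¬ p j} => cube)) (Prod.mk a ⁻¹' A)
          ≤ (Measure.pi (fun _ : {j // ¬ p j} => cube))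
              (Set.pi Set.univ fun _ => (Reg m 0 0 (r a))ᶜ) := by
            apply measure_mono
            intro b hb j _
            exact hb.2 j
        _ = (cube (Reg m 0 0 (r a))ᶜ) ^ (n - m) := by
            rw [Measure.pi_pi, Finset.prod_const, Finset.card_univ, hcard]
    · have : Prod.mk a ⁻¹' A = ∅ := by
        ext b
        simp only [Set.mem_preimage, Set.mem_empty_iff_false, iff_false]
        intro h
        exact hc h.1
      rw [this]
      simp
  have hσ := measurePreserving_piCongrLeft (fun _ : Subtype p => cube) σ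
  calc law n {x | Ch (fun i => x (σ i).1) ∧ (∀ j, x j ∉ Reg m 0 0 (fun i => x (σ i).1))}
      ≤ law n ((MeasurableEquiv.piEquivPiSubtypeProd (fun _ : Fin n => Fin 3 → ℝ) p) ⁻¹' A) :=
        measure_mono hsub
    _ = ((Measure.pi (fun _ : Subtype p => cube)).prod
          (Measure.pi (fun _ : {j // ¬ p j} => cube))) A :=
        he.measure_preimage hA.nullMeasurableSet
    _ = ∫⁻ a, (Measure.pi (fun _ : {j // ¬ p j} => cube)) (Prod.mk a ⁻¹' A)
          ∂(Measure.pi (fun _ : Subtype p => cube)) := Measure.prod_apply hA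
    _ ≤ ∫⁻ a, Set.indicator {y | Ch y} (fun y => (cube (Reg m 0 0 y)ᶜ) ^ (n - m)) (r a)
          ∂(Measure.pi (fun _ : Subtype p => cube)) :=
        lintegral_mono hslice
    _ = ∫⁻ y, Set.indicator {y | Ch y} (fun y => (cube (Reg m 0 0 y)ᶜ) ^ (n - m))
          (r (MeasurableEquiv.piCongrLeft (fun _ => Fin 3 → ℝ) σ y)) ∂(law m) :=
        MeasurePreserving.lintegral_map_equiv _ _ hσ
    _ = ∫⁻ y, Set.indicator {y | Ch y} (fun y => (cube (Reg m 0 0 y)ᶜ) ^ (n - m)) y ∂(law m) := by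
        refine lintegral_congr fun y => ?_
        congr 1
        funext k
        exact Equiv.piCongrLeft_apply_apply (fun _ => Fin 3 → ℝ) σ y k
    _ = ∫⁻ y in {y | Ch y}, (cube (Reg m 0 0 y)ᶜ) ^ (n - m) ∂(law m) := by
        rw [lintegral_indicator (measurableSet_Ch m)]

lemma law_event {n m : ℕ} (g : Fin m → Fin n) (hg : Function.Injective g) :
    law n {x | Ch (fun i => x (g i)) ∧ (∀ j, x j ∉ Reg m 0 0 (fun i => x (g i)))} ≤
      ∫⁻ y in {y | Ch y}, (cube (Reg m 0 0 y)ᶜ) ^ (n - m) ∂(law m) := by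
  classical
  exact law_event_aux (fun j => j ∈ Set.range g) (Equiv.ofInjective g hg)

/-- The union bound. -/
lemma law_le {n m : ℕ} :
    law n {x | m ≤ longest x} ≤
      (n : ℝ≥0∞) ^ m * ∫⁻ y in {y | Ch y}, (cube (Reg m 0 0 y)ᶜ) ^ (n - m) ∂(law m) := by
  classical
  set I := ∫⁻ y in {y | Ch y}, (cube (Reg m 0 0 y)ᶜ) ^ (n - m) ∂(law m) with hI
  have h1 : law n {x | m ≤ longest x} ≤ law n (⋃ g : Fin m → Fin n, {x |
      Function.Injective g ∧ Ch (fun i => x (g i)) ∧
        (∀ j, x j ∉ Reg m 0 0 (fun i => x (g i)))}) := by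
    apply measure_mono_ae
    filter_upwards [ae_mem_Icc n] with x hx hm
    obtain ⟨g, hg, hc, hr⟩ := exists_canon x (fun i => (hx i).1) hm
    exact Set.mem_iUnion.2 ⟨g, hg, hc, hr⟩
  refine h1.trans ((measure_iUnion_fintype_le _ _).trans ?_)
  calc ∑ g : Fin m → Fin n, law n {x | Function.Injective g ∧ Ch (fun i => x (g i)) ∧
        (∀ j, x j ∉ Reg m 0 0 (fun i => x (g i)))} ≤ ∑ _g : Fin m → Fin n, I := by
        apply Finset.sum_le_sum
        intro g _
        by_cases hg : Function.Injective g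
        · refine le_trans (measure_mono ?_) (law_event g hg)
          intro x hx
          exact hx.2
        · have : {x : Fin n → Fin 3 → ℝ | Function.Injective g ∧ Ch (fun i => x (g i)) ∧
              (∀ j, x j ∉ Reg m 0 0 (fun i => x (g i)))} = ∅ := by
            ext x
            simp [hg]
          rw [this]
          simp
    _ = (n : ℝ≥0∞) ^ m * I := by
        rw [Finset.sum_const, Finset.card_univ, Fintype.card_fun, Fintype.card_fin,
          Fintype.card_fin, nsmul_eq_mul]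
        push_cast
        rfl

end Pool.Agent.Helper3.K3
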