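import Pool.Agent.Helper3.K3.Defs

/-!
# The empty region of a canonical chain
-/

namespace Pool.Agent.Helper3.K3

open MeasureTheory
open scoped ENNReal

/-- The strict coordinatewise order on `ℝ³`. -/
def Lt (x y : Fin 3 → ℝ) : Prop := ∀ c, x c < y c

lemma Lt.le {x y : Fin 3 → ℝ} (h : Lt x y) : x ≤ y := fun c => (h c).le

lemma Lt.trans {x y z : Fin 3 → ℝ} (h : Lt x y) (h' : Lt y z) : Lt x z :=
  fun c => (h c).trans (h' c)

/-- The box below `q` in the first coordinate and below `r` in the others, above `p`. -/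
def Box (p q r : Fin 3 → ℝ) : Set (Fin 3 → ℝ) :=
  {z | (p 0 < z 0 ∧ z 0 < q 0) ∧ (p 1 < z 1 ∧ z 1 < r 1) ∧ (p 2 < z 2 ∧ z 2 < r 2)}

/-- The region that must be empty, for a chain `y` that continues `p, q`. -/
def Reg : (m : ℕ) → (p q : Fin 3 → ℝ) → (y : Fin m → Fin 3 → ℝ) → Set (Fin 3 → ℝ)
  | 0, _, _, _ => ∅
  | m + 1, p, q, y => Box p q (y 0) ∪ Reg m q (y 0) (fun i => y i.succ)

/-- The volume of the region. -/
def S : (m : ℕ) → (p q : Fin 3 → ℝ) → (y : Fin m → Fin 3 → ℝ) → ℝ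
  | 0, _, _, _ => 0
  | m + 1, p, q, y =>
      (q 0 - p 0) * (y 0 1 - p 1) * (y 0 2 - p 2) + S m q (y 0) (fun i => y i.succ)

/-- A (strict) chain. -/
def Ch {m : ℕ} (y : Fin m → Fin 3 → ℝ) : Prop := ∀ i j, i < j → Lt (y i) (y j)

lemma Ch.tail {m : ℕ} {y : Fin (m + 1) → Fin 3 → ℝ} (h : Ch y) : Ch (fun i => y i.succ) :=
  fun i j hij => h i.succ j.succ (by simpa using hij)

lemma mem_Reg {m : ℕ} : ∀ (p q : Fin 3 → ℝ) (y : Fin m → Fin 3 → ℝ), Ch y → (∀ i, q ≤ y i) →
    ∀ z ∈ Reg m p q y, (∃ h : 0 < m, z ∈ Box p q (y ⟨0, h⟩)) ∨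
      ∃ i : Fin m, Lt q z ∧ (∀ a, a < i → Lt (y a) z) ∧ (∀ b, i < b → Lt z (y b)) ∧
        z 0 < y i 0 := by
  induction m with
  | zero => intro p q y _ _ z hz; exact absurd hz (by simp [Reg])
  | succ m ih =>
    intro p q y hc hq z hz
    rcases hz with hz | hz
    · exact Or.inl ⟨Nat.succ_pos m, hz⟩
    · right
      have hq' : ∀ i : Fin m, y 0 ≤ y i.succ := fun i => (hc 0 i.succ (Fin.succ_pos i)).le
      rcases ih q (y 0) (fun i => y i.succ) hc.tail hq' z hz with ⟨hm, hb⟩ | ⟨i, h0, h1, h2, h3⟩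
      · refine ⟨0, ?_, ?_, ?_, ?_⟩
        · obtain ⟨⟨b1, _⟩, ⟨b2, _⟩, ⟨b3, _⟩⟩ := hb
          intro c
          fin_cases c
          · exact b1
          · exact b2
          · exact b3
        · intro a ha
          exact absurd ha (by simp)
        · intro b hb0
          obtain ⟨⟨_, b1⟩, ⟨_, b2⟩, ⟨_, b3⟩⟩ := hb
          set y1 := y (Fin.succ ⟨0, hm⟩) with hy1
          have h01 : y 0 0 < y1 0 := hc 0 (Fin.succ ⟨0, hm⟩) (Fin.succ_pos _) 0
          have hle : y1 ≤ y b := by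
            have : Fin.succ (⟨0, hm⟩ : Fin m) ≤ b := by
              rw [Fin.le_def]
              have : (0 : Fin (m+1)).val < b.val := hb0
              simp at this ⊢
              omega
            rcases this.lt_or_eq with h | h
            · exact (hc _ _ h).le
            · rw [← h]
          intro c
          fin_cases c
          · exact lt_of_lt_of_le (b1.trans h01) (hle 0)
          · exact lt_of_lt_of_le b2 (hle 1)
          · exact lt_of_lt_of_le b3 (hle 2)
        · exact hb.1.2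
      · refine ⟨i.succ, ?_, ?_, ?_, h3⟩
        · intro c
          exact lt_of_le_of_lt (hq 0 c) (h0 c)
        · intro a ha
          rcases Fin.eq_zero_or_eq_succ a with rfl | ⟨a', rfl⟩
          · exact h0
          · exact h1 a' (by simpa using ha)
        · intro b hb
          rcases Fin.eq_zero_or_eq_succ b with rfl | ⟨b', rfl⟩
          · exact absurd hb (by simp)
          · exact h2 b' (by simpa using hb)

lemma Box_eq (p q r : Fin 3 → ℝ) :
    Box p q r = Set.pi Set.univ (fun c => Set.Ioo (p c) (![q 0, r 1, r 2] c)) := by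
  ext z
  simp [Box, Fin.forall_fin_succ]

lemma measurableSet_Box (p q r : Fin 3 → ℝ) : MeasurableSet (Box p q r) := by
  rw [Box_eq]
  exact MeasurableSet.univ_pi (fun c => measurableSet_Ioo)

lemma volume_Box {p q r : Fin 3 → ℝ} (hpq : p ≤ q) (hqr : q ≤ r) :
    volume (Box p q r) = ENNReal.ofReal ((q 0 - p 0) * (r 1 - p 1) * (r 2 - p 2)) := by
  rw [Box_eq, Real.volume_pi_Ioo, Fin.prod_univ_three]
  have h0 : 0 ≤ q 0 - p 0 := sub_nonneg.2 (hpq 0)
  have h1 : 0 ≤ r 1 - p 1 := sub_nonneg.2 ((hpq 1).trans (hqr 1))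
  simp only [Matrix.cons_val_zero, Matrix.cons_val_one, Matrix.cons_val]
  rw [← ENNReal.ofReal_mul h0, ← ENNReal.ofReal_mul (mul_nonneg h0 h1)]

lemma measurableSet_Reg {m : ℕ} : ∀ (p q : Fin 3 → ℝ) (y : Fin m → Fin 3 → ℝ),
    MeasurableSet (Reg m p q y) := by
  induction m with
  | zero => intro p q y; exact MeasurableSet.empty
  | succ m ih =>
    intro p q y
    exact (measurableSet_Box _ _ _).union (ih _ _ _)

lemma Reg_lt {m : ℕ} : ∀ (p q : Fin 3 → ℝ) (y : Fin m → Fin 3 → ℝ), p ≤ q → (∀ i, q ≤ y i) →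
    Ch y → ∀ z ∈ Reg m p q y, p 0 < z 0 := by
  induction m with
  | zero => intro p q y _ _ _ z hz; exact absurd hz (by simp [Reg])
  | succ m ih =>
    intro p q y hpq hq hc z hz
    rcases hz with hz | hz
    · exact hz.1.1
    · have := ih q (y 0) (fun i => y i.succ) (hq 0)
        (fun i => (hc 0 i.succ (Fin.succ_pos i)).le) hc.tail z hz
      exact lt_of_le_of_lt (hpq 0) this

lemma S_nonneg {m : ℕ} : ∀ (p q : Fin 3 → ℝ) (y : Fin m → Fin 3 → ℝ), p ≤ q → (∀ i, q ≤ y i) →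
    Ch y → 0 ≤ S m p q y := by
  induction m with
  | zero => intro p q y _ _ _; exact le_refl _
  | succ m ih =>
    intro p q y hpq hq hc
    have := ih q (y 0) (fun i => y i.succ) (hq 0)
        (fun i => (hc 0 i.succ (Fin.succ_pos i)).le) hc.tail
    have h0 : 0 ≤ q 0 - p 0 := sub_nonneg.2 (hpq 0)
    have h1 : 0 ≤ y 0 1 - p 1 := sub_nonneg.2 ((hpq 1).trans (hq 0 1))
    have h2 : 0 ≤ y 0 2 - p 2 := sub_nonneg.2 ((hpq 2).trans (hq 0 2))
    simp only [S]
    positivity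

lemma volume_Reg {m : ℕ} : ∀ (p q : Fin 3 → ℝ) (y : Fin m → Fin 3 → ℝ), p ≤ q → (∀ i, q ≤ y i) →
    Ch y → volume (Reg m p q y) = ENNReal.ofReal (S m p q y) := by
  induction m with
  | zero => intro p q y _ _ _; simp [Reg, S]
  | succ m ih =>
    intro p q y hpq hq hc
    have hq' : ∀ i : Fin m, y 0 ≤ y i.succ := fun i => (hc 0 i.succ (Fin.succ_pos i)).le
    have hd : Disjoint (Box p q (y 0)) (Reg m q (y 0) (fun i => y i.succ)) := by
      rw [Set.disjoint_left]
      intro z hz hz'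
      have := Reg_lt _ _ _ (hq 0) hq' hc.tail z hz'
      exact absurd hz.1.2 (not_lt.2 this.le)
    simp only [Reg, S]
    rw [measure_union hd (measurableSet_Reg _ _ _), volume_Box hpq (hq 0),
      ih _ _ _ (hq 0) hq' hc.tail, ENNReal.ofReal_add]
    · have h0 : 0 ≤ q 0 - p 0 := sub_nonneg.2 (hpq 0)
      have h1 : 0 ≤ y 0 1 - p 1 := sub_nonneg.2 ((hpq 1).trans (hq 0 1))
      have h2 : 0 ≤ y 0 2 - p 2 := sub_nonneg.2 ((hpq 2).trans (hq 0 2))
      positivity
    · exact S_nonneg _ _ _ (hq 0) hq' hc.tail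

lemma Reg_subset {m : ℕ} : ∀ (p q : Fin 3 → ℝ) (y : Fin m → Fin 3 → ℝ), 0 ≤ p → 0 ≤ q → q ≤ 1 →
    (∀ i, 0 ≤ y i) → (∀ i, y i ≤ 1) → Reg m p q y ⊆ Set.Icc 0 1 := by
  induction m with
  | zero => intro p q y _ _ _ _ _ z hz; exact absurd hz (by simp [Reg])
  | succ m ih =>
    intro p q y hp hq hq1 h0 h1 z hz
    rcases hz with hz | hz
    · obtain ⟨⟨a1, a2⟩, ⟨b1, b2⟩, ⟨c1, c2⟩⟩ := hz
      have k0 := hp 0
      have k1 := hp 1
      have k2 := hp 2
      have l0 := hq1 0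
      have l1 := h1 0 1
      have l2 := h1 0 2
      simp only [Pi.zero_apply, Pi.one_apply] at k0 k1 k2 l0 l1 l2
      constructor
      · intro c
        fin_cases c
        · exact (k0.trans_lt a1).le
        · exact (k1.trans_lt b1).le
        · exact (k2.trans_lt c1).le
      · intro c
        fin_cases c
        · exact (a2.trans_le l0).le
        · exact (b2.trans_le l1).le
        · exact (c2.trans_le l2).le
    · exact ih _ _ _ hq (h0 0) (h1 0) (fun i => h0 _) (fun i => h1 _) hz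

end Pool.Agent.Helper3.K3
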