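import Pool.Agent.Helper3.K3.Transfer

/-!
# Scaling, and the bound for `P(L ≥ m)`
-/

namespace Pool.Agent.Helper3.K3

open MeasureTheory
open scoped ENNReal

lemma QN_eq (s : ℝ) (u v : Fin 3 → ℝ) : QN (s ^ 3) (2 * s) u v = Q (s • u) (s • v) := by
  unfold QN Q
  congr 2
  simp only [Pi.smul_apply, smul_eq_mul]
  ring

lemma lintegral_scale (s : ℝ) (hs : 0 < s) (G : (Fin 3 → ℝ) → ℝ≥0∞) :
    ∫⁻ v, G (s • v) = ENNReal.ofReal ((s ^ 3)⁻¹) * ∫⁻ w, G w := by
  have h := Measure.map_addHaar_smul (volume : Measure (Fin 3 → ℝ)) hs.ne'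
  have h2 := lintegral_map_equiv (μ := (volume : Measure (Fin 3 → ℝ))) G
    (MeasurableEquiv.smul₀ s hs.ne')
  have h3 : Measure.map (⇑(MeasurableEquiv.smul₀ s hs.ne')) (volume : Measure (Fin 3 → ℝ)) =
      Measure.map (fun x => s • x) volume := rfl
  rw [h3, h, lintegral_smul_measure, Module.finrank_fin_fun,
    abs_of_pos (inv_pos.2 (pow_pos hs 3))] at h2
  exact h2.symm

lemma TN_scale (s : ℝ) (hs : 0 < s) (k : ℕ) : ∀ u : Fin 3 → ℝ,
    (TN (s ^ 3) (2 * s))^[k] (fun _ => 1) u =
      (ENNReal.ofReal ((s ^ 3)⁻¹)) ^ k * (T^[k] (fun _ => 1)) (s • u) := by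
  induction k with
  | zero => intro u; simp
  | succ k ih =>
    intro u
    rw [Function.iterate_succ_apply', Function.iterate_succ_apply']
    set c := ENNReal.ofReal ((s ^ 3)⁻¹) with hc
    have hmem : ∀ v : Fin 3 → ℝ, v ∈ Set.Ici (0 : Fin 3 → ℝ) ↔ s • v ∈ Set.Ici (0 : Fin 3 → ℝ) := by
      intro v
      constructor
      · intro h i
        exact mul_nonneg hs.le (h i)
      · intro h i
        have := h i
        simp only [Pi.zero_apply, Pi.smul_apply, smul_eq_mul] at this ⊢
        exact nonneg_of_mul_nonneg_right this hs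
    calc TN (s ^ 3) (2 * s) ((TN (s ^ 3) (2 * s))^[k] (fun _ => 1)) u
        = ∫⁻ v, (fun w => (Set.Ici (0 : Fin 3 → ℝ)).indicator
            (fun w => Q (s • u) w * (c ^ k * (T^[k] (fun _ => 1)) w)) w) (s • v) := by
          unfold TN
          rw [← lintegral_indicator measurableSet_Ici]
          refine lintegral_congr fun v => ?_
          simp only
          by_cases h : v ∈ Set.Ici (0 : Fin 3 → ℝ)
          · rw [Set.indicator_of_mem h, Set.indicator_of_mem ((hmem v).1 h), QN_eq]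
            congr 1
            exact ih v
          · rw [Set.indicator_of_notMem h, Set.indicator_of_notMem (fun h' => h ((hmem v).2 h'))]
      _ = c * ∫⁻ w, (Set.Ici (0 : Fin 3 → ℝ)).indicator
            (fun w => Q (s • u) w * (c ^ k * (T^[k] (fun _ => 1)) w)) w :=
          lintegral_scale s hs _
      _ = c * (c ^ k * T (T^[k] (fun _ => 1)) (s • u)) := by
          rw [lintegral_indicator measurableSet_Ici]
          congr 1
          unfold T
          rw [← lintegral_const_mul' _ _ (ENNReal.pow_ne_top ENNReal.ofReal_ne_top)]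
          refine lintegral_congr fun w => ?_
          ring
      _ = c ^ (k + 1) * T (T^[k] (fun _ => 1)) (s • u) := by
          rw [pow_succ]
          ring

lemma law_le_volume (m : ℕ) : law m ≤ (volume : Measure (Fin m → Fin 3 → ℝ)) := by
  have := Measure.restrict_pi_pi (μ := fun _ : Fin m => (volume : Measure (Fin 3 → ℝ)))
    (fun _ => Set.Icc (0 : Fin 3 → ℝ) 1)
  unfold law cube
  rw [← this]
  exact Measure.restrict_le_self

/-- The bound for the probability of a chain of length `m`. -/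
theorem law_bound {n m : ℕ} (s : ℝ) (hs : 0 < s) (hs3 : s ^ 3 = ((n - m : ℕ) : ℝ)) :
    law n {x | m ≤ longest x} ≤
      (n : ℝ≥0∞) ^ m * (ENNReal.ofReal (Real.exp (6 * s)) *
        ((ENNReal.ofReal ((((n - m : ℕ) : ℝ))⁻¹)) ^ m * (T^[m] (fun _ => 1)) 0)) := by
  refine law_le.trans ?_
  gcongr
  have hT : ∫⁻ y, chainWt (s ^ 3) (2 * s) m 0 0 y =
      (ENNReal.ofReal ((((n - m : ℕ) : ℝ))⁻¹)) ^ m * (T^[m] (fun _ => 1)) 0 := by
    rw [lintegral_wt, TN_scale s hs, hs3]
    simp
  calc ∫⁻ y in {y | Ch y}, (cube (Reg m 0 0 y)ᶜ) ^ (n - m) ∂(law m)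
      ≤ ∫⁻ y in {y | Ch y}, ENNReal.ofReal (Real.exp (6 * s)) * chainWt (s ^ 3) (2 * s) m 0 0 y
          ∂(law m) := by
        refine lintegral_mono_ae ?_
        have h1 := ae_restrict_of_ae (s := {y : Fin m → Fin 3 → ℝ | Ch y}) (ae_mem_Icc m)
        have h2 := ae_restrict_mem (μ := law m) (measurableSet_Ch m)
        filter_upwards [h1, h2] with y hy hc
        have hc' : Ch y := hc
        have e0 : ENNReal.ofReal (Real.exp (-(S m 0 0 y))) ^ (n - m) =
            ENNReal.ofReal (Real.exp (-(s ^ 3 * S m 0 0 y))) := by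
          rw [← ENNReal.ofReal_pow (Real.exp_nonneg _), ← Real.exp_nat_mul, hs3]
          congr 2
          ring
        calc (cube (Reg m 0 0 y)ᶜ) ^ (n - m)
            ≤ ENNReal.ofReal (Real.exp (-(S m 0 0 y))) ^ (n - m) := by
              gcongr
              exact cube_compl_Reg y hc' (fun i => (hy i).1) (fun i => (hy i).2)
          _ = ENNReal.ofReal (Real.exp (-(s ^ 3 * S m 0 0 y))) := e0
          _ ≤ ENNReal.ofReal (Real.exp (2 * s * ((1 - (0 : Fin 3 → ℝ) 0) +
                (1 - (0 : Fin 3 → ℝ) 1) + (1 - (0 : Fin 3 → ℝ) 2)))) *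
                chainWt (s ^ 3) (2 * s) m 0 0 y :=
              wt_ge (s ^ 3) (2 * s) (by positivity) 0 0 y hc' (fun i => (hy i).1) zero_le_one
                (fun i => (hy i).2)
          _ = ENNReal.ofReal (Real.exp (6 * s)) * chainWt (s ^ 3) (2 * s) m 0 0 y := by
              congr 3
              simp only [Pi.zero_apply]
              ring
    _ ≤ ∫⁻ y, ENNReal.ofReal (Real.exp (6 * s)) * chainWt (s ^ 3) (2 * s) m 0 0 y ∂(law m) :=
        setLIntegral_le_lintegral _ _
    _ ≤ ∫⁻ y, ENNReal.ofReal (Real.exp (6 * s)) * chainWt (s ^ 3) (2 * s) m 0 0 y :=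
        lintegral_mono' (law_le_volume m) le_rfl
    _ = ENNReal.ofReal (Real.exp (6 * s)) *
        ((ENNReal.ofReal ((((n - m : ℕ) : ℝ))⁻¹)) ^ m * (T^[m] (fun _ => 1)) 0) := by
        rw [lintegral_const_mul' _ _ ENNReal.ofReal_ne_top, hT]

end Pool.Agent.Helper3.K3
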