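import Pool.Agent.Helper3.K3.Law

/-!
# The transfer operator
-/

namespace Pool.Agent.Helper3.K3

open MeasureTheory
open scoped ENNReal

/-- Unscaled one-step weight. -/
noncomputable def QN (N lam : ℝ) (u v : Fin 3 → ℝ) : ℝ≥0∞ :=
  ENNReal.ofReal
    (Real.exp (-(N * (u 0 * (u 1 + v 1) * (u 2 + v 2))) - lam * (v 0 + v 1 + v 2)))

/-- Unscaled transfer operator. -/
noncomputable def TN (N lam : ℝ) (f : (Fin 3 → ℝ) → ℝ≥0∞) (u : Fin 3 → ℝ) : ℝ≥0∞ :=
  ∫⁻ v in Set.Ici (0 : Fin 3 → ℝ), QN N lam u v * f v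

/-- The weight of a chain. -/
noncomputable def chainWt (N lam : ℝ) : (m : ℕ) → (p q : Fin 3 → ℝ) → (Fin m → Fin 3 → ℝ) → ℝ≥0∞
  | 0, _, _, _ => 1
  | m + 1, p, q, y => (Set.Ici q).indicator (fun r => QN N lam (q - p) (r - q)) (y 0) *
      chainWt N lam m q (y 0) (fun i => y i.succ)

lemma wt_ge (N lam : ℝ) (hlam : 0 ≤ lam) {m : ℕ} : ∀ (p q : Fin 3 → ℝ) (y : Fin m → Fin 3 → ℝ),
    Ch y → (∀ i, q ≤ y i) → q ≤ 1 → (∀ i, y i ≤ 1) →
    ENNReal.ofReal (Real.exp (-(N * S m p q y))) ≤
      ENNReal.ofReal (Real.exp (lam * ((1 - q 0) + (1 - q 1) + (1 - q 2)))) *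
        chainWt N lam m p q y := by
  induction m with
  | zero =>
    intro p q y _ _ hq _
    simp only [chainWt, mul_one]
    apply ENNReal.ofReal_le_ofReal
    apply Real.exp_le_exp.2
    simp only [S, mul_zero, neg_zero]
    have h0 := hq 0
    have h1 := hq 1
    have h2 := hq 2
    simp only [Pi.one_apply] at h0 h1 h2
    apply mul_nonneg hlam
    linarith
  | succ m ih =>
    intro p q y hc hq hq1 hy1
    have hq' : ∀ i : Fin m, y 0 ≤ y i.succ := fun i => (hc 0 i.succ (Fin.succ_pos i)).le
    have h := ih q (y 0) (fun i => y i.succ) hc.tail hq' (hy1 0) (fun i => hy1 _)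
    simp only [chainWt]
    rw [Set.indicator_of_mem (by exact hq 0)]
    set W := chainWt N lam m q (y 0) (fun i => y i.succ) with hW
    have e1 : Real.exp (-(N * S (m + 1) p q y)) =
        Real.exp (-(N * ((q 0 - p 0) * (y 0 1 - p 1) * (y 0 2 - p 2)))) *
          Real.exp (-(N * S m q (y 0) (fun i => y i.succ))) := by
      rw [← Real.exp_add]
      congr 1
      simp only [S]
      ring
    have e2 : Real.exp (lam * ((1 - q 0) + (1 - q 1) + (1 - q 2))) *
        Real.exp (-(N * ((q - p) 0 * ((q - p) 1 + (y 0 - q) 1) * ((q - p) 2 + (y 0 - q) 2))) -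
          lam * ((y 0 - q) 0 + (y 0 - q) 1 + (y 0 - q) 2)) =
        Real.exp (-(N * ((q 0 - p 0) * (y 0 1 - p 1) * (y 0 2 - p 2)))) *
          Real.exp (lam * ((1 - y 0 0) + (1 - y 0 1) + (1 - y 0 2))) := by
      rw [← Real.exp_add, ← Real.exp_add]
      congr 1
      simp only [Pi.sub_apply]
      ring
    unfold QN
    calc ENNReal.ofReal (Real.exp (-(N * S (m + 1) p q y)))
        = ENNReal.ofReal (Real.exp (-(N * ((q 0 - p 0) * (y 0 1 - p 1) * (y 0 2 - p 2))))) *
            ENNReal.ofReal (Real.exp (-(N * S m q (y 0) (fun i => y i.succ)))) := by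
          rw [e1, ENNReal.ofReal_mul (Real.exp_nonneg _)]
      _ ≤ ENNReal.ofReal (Real.exp (-(N * ((q 0 - p 0) * (y 0 1 - p 1) * (y 0 2 - p 2))))) *
            (ENNReal.ofReal (Real.exp (lam * ((1 - y 0 0) + (1 - y 0 1) + (1 - y 0 2)))) * W) := by
          gcongr
      _ = ENNReal.ofReal (Real.exp (lam * ((1 - q 0) + (1 - q 1) + (1 - q 2))) *
        Real.exp (-(N * ((q - p) 0 * ((q - p) 1 + (y 0 - q) 1) * ((q - p) 2 + (y 0 - q) 2))) -
          lam * ((y 0 - q) 0 + (y 0 - q) 1 + (y 0 - q) 2))) * W := by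
          rw [e2, ENNReal.ofReal_mul (Real.exp_nonneg _), mul_assoc (ENNReal.ofReal _)]
      _ = _ := by
          rw [ENNReal.ofReal_mul (Real.exp_nonneg _), mul_assoc (ENNReal.ofReal _)]

lemma measurable_wt (N lam : ℝ) (m : ℕ) :
    Measurable (fun t : ((Fin 3 → ℝ) × (Fin 3 → ℝ)) × (Fin m → Fin 3 → ℝ) =>
      chainWt N lam m t.1.1 t.1.2 t.2) := by
  induction m with
  | zero => simp only [chainWt]; exact measurable_const
  | succ m ih =>
    simp only [chainWt]
    refine Measurable.mul ?_ ?_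
    · have hs : MeasurableSet {t : ((Fin 3 → ℝ) × (Fin 3 → ℝ)) × (Fin (m + 1) → Fin 3 → ℝ) |
          t.1.2 ≤ t.2 0} := measurableSet_le (by fun_prop) (by fun_prop)
      have hf : Measurable (fun t : ((Fin 3 → ℝ) × (Fin 3 → ℝ)) × (Fin (m + 1) → Fin 3 → ℝ) =>
          QN N lam (t.1.2 - t.1.1) (t.2 0 - t.1.2)) := by
        unfold QN
        simp only [Pi.sub_apply]
        fun_prop
      have := hf.indicator hs
      have e : (fun t : ((Fin 3 → ℝ) × (Fin 3 → ℝ)) × (Fin (m + 1) → Fin 3 → ℝ) =>
          (Set.Ici t.1.2).indicator (fun r => QN N lam (t.1.2 - t.1.1) (r - t.1.2)) (t.2 0)) =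
          {t : ((Fin 3 → ℝ) × (Fin 3 → ℝ)) × (Fin (m + 1) → Fin 3 → ℝ) |
            t.1.2 ≤ t.2 0}.indicator
            fun t => QN N lam (t.1.2 - t.1.1) (t.2 0 - t.1.2) := by
        funext t
        by_cases h : t.1.2 ≤ t.2 0
        · rw [Set.indicator_of_mem (by exact h), Set.indicator_of_mem (by exact h)]
        · rw [Set.indicator_of_notMem (by exact h), Set.indicator_of_notMem (by exact h)]
      rw [e]
      exact this
    · have hm : Measurable (fun t : ((Fin 3 → ℝ) × (Fin 3 → ℝ)) × (Fin (m + 1) → Fin 3 → ℝ) =>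
          ((t.1.2, t.2 0), fun i : Fin m => t.2 i.succ)) := by fun_prop
      exact ih.comp hm

lemma lintegral_wt (N lam : ℝ) {m : ℕ} : ∀ (p q : Fin 3 → ℝ),
    ∫⁻ y, chainWt N lam m p q y = (TN N lam)^[m] (fun _ => 1) (q - p) := by
  induction m with
  | zero =>
    intro p q
    simp only [chainWt, Function.iterate_zero, id]
    rw [lintegral_one, volume_pi, Measure.pi_empty_univ]
  | succ m ih =>
    intro p q
    rw [Function.iterate_succ_apply']
    have hmp := volume_preserving_piFinSuccAbove (fun _ : Fin (m + 1) => Fin 3 → ℝ) 0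
    have hmeas : Measurable (fun t : (Fin 3 → ℝ) × (Fin m → Fin 3 → ℝ) =>
        (Set.Ici q).indicator (fun r => QN N lam (q - p) (r - q)) t.1 *
          chainWt N lam m q t.1 t.2) := by
      refine Measurable.mul ?_ ?_
      · refine Measurable.indicator ?_ measurableSet_Ici |>.comp measurable_fst
        unfold QN
        simp only [Pi.sub_apply]
        fun_prop
      · have hm : Measurable (fun t : (Fin 3 → ℝ) × (Fin m → Fin 3 → ℝ) =>
          ((q, t.1), t.2)) := by fun_prop
        exact (measurable_wt N lam m).comp hm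
    calc ∫⁻ y, chainWt N lam (m + 1) p q y
        = ∫⁻ y : Fin (m + 1) → Fin 3 → ℝ, (fun t : (Fin 3 → ℝ) × (Fin m → Fin 3 → ℝ) =>
            (Set.Ici q).indicator (fun r => QN N lam (q - p) (r - q)) t.1 *
              chainWt N lam m q t.1 t.2)
            (MeasurableEquiv.piFinSuccAbove (fun _ : Fin (m + 1) => Fin 3 → ℝ) 0 y) := by
          refine lintegral_congr fun y => ?_
          rfl
      _ = ∫⁻ t : (Fin 3 → ℝ) × (Fin m → Fin 3 → ℝ),
            (Set.Ici q).indicator (fun r => QN N lam (q - p) (r - q)) t.1 *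
              chainWt N lam m q t.1 t.2 :=
          (MeasurePreserving.lintegral_map_equiv
            (fun t : (Fin 3 → ℝ) × (Fin m → Fin 3 → ℝ) =>
              (Set.Ici q).indicator (fun r => QN N lam (q - p) (r - q)) t.1 *
                chainWt N lam m q t.1 t.2) _ hmp).symm
      _ = ∫⁻ r : Fin 3 → ℝ, ∫⁻ t : Fin m → Fin 3 → ℝ,
            (Set.Ici q).indicator (fun r => QN N lam (q - p) (r - q)) r *
              chainWt N lam m q r t := lintegral_prod _ hmeas.aemeasurable
      _ = ∫⁻ r : Fin 3 → ℝ,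
            (Set.Ici q).indicator (fun r => QN N lam (q - p) (r - q)) r *
              (TN N lam)^[m] (fun _ => 1) (r - q) := by
          refine lintegral_congr fun r => ?_
          rw [lintegral_const_mul, ih]
          have hm : Measurable (fun t : (Fin m → Fin 3 → ℝ) => ((q, r), t)) := by fun_prop
          exact (measurable_wt N lam m).comp hm
      _ = ∫⁻ r : Fin 3 → ℝ, (fun v => (Set.Ici 0).indicator (fun v => QN N lam (q - p) v) v *
              (TN N lam)^[m] (fun _ => 1) v) (r - q) := by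
          refine lintegral_congr fun r => ?_
          simp only
          congr 1
          by_cases h : q ≤ r
          · rw [Set.indicator_of_mem (by exact h), Set.indicator_of_mem (by simpa using h)]
          · rw [Set.indicator_of_notMem (by exact h), Set.indicator_of_notMem (by simpa using h)]
      _ = ∫⁻ v : Fin 3 → ℝ, (Set.Ici 0).indicator (fun v => QN N lam (q - p) v) v *
              (TN N lam)^[m] (fun _ => 1) v :=
          lintegral_sub_right_eq_self (μ := (volume : Measure (Fin 3 → ℝ)))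
            (fun v => (Set.Ici 0).indicator (fun v => QN N lam (q - p) v) v *
              (TN N lam)^[m] (fun _ => 1) v) q
      _ = TN N lam ((TN N lam)^[m] (fun _ => 1)) (q - p) := by
          unfold TN
          rw [← lintegral_indicator measurableSet_Ici]
          refine lintegral_congr fun v => ?_
          by_cases h : v ∈ Set.Ici (0 : Fin 3 → ℝ)
          · rw [Set.indicator_of_mem h, Set.indicator_of_mem h]
          · rw [Set.indicator_of_notMem h, Set.indicator_of_notMem h, zero_mul]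

end Pool.Agent.Helper3.K3
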